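import Pool.Agent.ShorBoth.LinMain

/-!
Coefficients which are linear in `n`: conclusion.
-/

set_option autoImplicit false

namespace Pool.Agent.ShorBoth

open Polynomial Finset

theorem vv_linear (G : ℂ[X][X]) (hG : ∀ j, (G.coeff j).natDegree ≤ 1) (m y : ℂ) :
    vv G m y = (cf G 0).eval m + (cf G 1).eval m * y := by
  unfold vv
  have h1 : (G.eval (C m)).natDegree ≤ 1 :=
    (natDegree_eval_le G m).trans (Finset.sup_le fun j _ => hG j)
  rw [eval_eq_sum_range' (n := 2) (by omega), sum_range_succ, sum_range_one, cf_eval, cf_eval]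
  ring

/-- The constant coefficient of `Q` has no repetition at distance one. -/
theorem diff_root {P Q : ℂ[X][X]} (h : Adm P Q) (hP : ∀ j, (P.coeff j).natDegree ≤ 1)
    (hQ : ∀ j, (Q.coeff j).natDegree ≤ 1) (hP1 : cf P 1 = 0) (m : ℂ)
    (hm : ((cf Q 0).comp (X + 1) - cf Q 0).eval m = 0) : m = -1 := by
  classical
  obtain ⟨q, hq0, hq⟩ := lead_const h hP hQ
  have hP0 : cf P 0 = X := (const_part h hP hQ).1 hP1
  have hQ1 : cf Q 1 = C q := by rw [← hq, hP1, zero_add]
  by_contra hne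
  obtain ⟨p, hpN, hF, V, hV, ⟨φ⟩⟩ := exists_hom
    (coefs P ∪ (coefs Q ∪ ({m} ∪ ({(m + 1)⁻¹} ∪ ({q} ∪ {q⁻¹}))))) 2
  simp only [mem_union, mem_singleton] at hV
  obtain ⟨P', hP'⟩ := exists_lift V P fun x hx => hV x (Or.inl hx)
  obtain ⟨Q', hQ'⟩ := exists_lift V Q fun x hx => hV x (Or.inr (Or.inl hx))
  have hmV : m ∈ V := hV m (Or.inr (Or.inr (Or.inl rfl)))
  have hmV' : (m + 1)⁻¹ ∈ V := hV _ (Or.inr (Or.inr (Or.inr (Or.inl rfl))))
  have hqV : q ∈ V := hV _ (Or.inr (Or.inr (Or.inr (Or.inr (Or.inl rfl)))))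
  have hqV' : q⁻¹ ∈ V := hV _ (Or.inr (Or.inr (Or.inr (Or.inr (Or.inr rfl)))))
  have hinj : Function.Injective V.subtype := Subtype.val_injective
  have hadm : Adm P' Q' := adm_of_map V.subtype hinj (by rw [hP', hQ']; exact h)
  have hadmp := adm_map φ hadm
  have hodd : Odd p := hF.out.odd_of_ne_two (by omega)
  have hφq : φ ⟨q, hqV⟩ ≠ 0 := by
    intro h0
    have h1 : (⟨q, hqV⟩ : V) * ⟨q⁻¹, hqV'⟩ = 1 := by
      apply Subtype.val_injective
      show q * q⁻¹ = 1
      exact mul_inv_cancel₀ hq0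
    have h2 := congrArg φ h1
    rw [map_mul, h0, zero_mul, map_one] at h2
    exact zero_ne_one h2
  set a : V := ⟨m, hmV⟩ with ha
  have hb1 : φ a ≠ -1 := by
    intro h1
    have h2 : (a + 1) * ⟨(m + 1)⁻¹, hmV'⟩ = 1 := by
      apply Subtype.val_injective
      show (m + 1) * (m + 1)⁻¹ = 1
      refine mul_inv_cancel₀ ?_
      intro h3
      exact hne (eq_neg_of_add_eq_zero_left h3)
    have h3 := congrArg φ h2
    rw [map_mul, map_add, map_one, h1, neg_add_cancel, zero_mul] at h3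
    exact zero_ne_one h3
  have hdegP := tr_natDegree V φ hP' hP
  have hdegQ := tr_natDegree V φ hQ' hQ
  have hPev : ∀ c : V, (bc φ P').eval (C (φ c)) = C (φ c) := by
    intro c
    rw [eq_X_add_C_of_natDegree_le_one (hdegP (φ c)), tr_coeff', tr_coeff']
    have h1 : (P'.eval (C c)).coeff 1 = 0 := by
      apply hinj
      rw [tr_coeff V hP', hP1]
      simp
    have h0 : (P'.eval (C c)).coeff 0 = c := by
      apply hinj
      rw [tr_coeff V hP', hP0, eval_X]
      rfl
    rw [h1, h0]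
    simp
  have hQev : (bc φ Q').eval (C (φ (a + 1))) = (bc φ Q').eval (C (φ a)) := by
    rw [eq_X_add_C_of_natDegree_le_one (hdegQ (φ (a + 1))),
      eq_X_add_C_of_natDegree_le_one (hdegQ (φ a)), tr_coeff', tr_coeff', tr_coeff', tr_coeff']
    have h1 : (Q'.eval (C (a + 1))).coeff 1 = (Q'.eval (C a)).coeff 1 := by
      apply hinj
      rw [tr_coeff V hQ', tr_coeff V hQ', hQ1, eval_C, eval_C]
    have h0 : (Q'.eval (C (a + 1))).coeff 0 = (Q'.eval (C a)).coeff 0 := by
      apply hinj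
      rw [tr_coeff V hQ', tr_coeff V hQ']
      rw [eval_sub, eval_comp, eval_add, eval_X, eval_one] at hm
      have h2 : (((a + 1 : V)) : ℂ) = m + 1 := rfl
      have h3 : ((a : V) : ℂ) = m := rfl
      rw [h2, h3]
      linear_combination hm
    rw [h1, h0]
  refine no_repeat hadmp hdegP hdegQ (φ ⟨q, hqV⟩) hφq ?_ hodd (by omega) (φ a) hb1 (hPev a)
    ?_ ?_
  · intro b
    have hb : b = φ (b.val : V) := by
      rw [map_natCast, ZMod.natCast_zmod_val]
    rw [hb, tr_coeff', tr_coeff', ← map_add]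
    congr 1
    apply hinj
    rw [map_add, tr_coeff V hP', tr_coeff V hQ', ← eval_add, hq, eval_C]
    rfl
  · have := hPev (a + 1)
    rw [map_add, map_one] at this
    exact this
  · rw [map_add, map_one] at hQev
    exact hQev

/-- The first rows. -/
theorem first_rows {P Q : ℂ[X][X]} (h : Adm P Q) (q : ℂ) (x : ℂ → ℂ)
    (hP : ∀ m n : ℂ, vv P m n = m) (hQ : ∀ m n : ℂ, vv Q m n = x m + q * n) :
    x 0 + q = 1 ∧ 1 + (x 1 + 2 * q) = 4 ∧ 8 + 11 * q + 4 * x 2 = 27 ∧
      81 + 4 * q + 3 * q * (6 + 2 * q + x 2) + 12 * q * (3 * q + x 2) + 27 * x 3 = 256 := by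
  have s11 : S P Q 1 1 = 1 := S_one_one h
  have s11' : S P Q 1 1 = x 0 + q := by
    simp [S, hQ]
  have s21 : S P Q 2 1 = 1 := by
    rw [show (2 : ℕ) = 1 + 1 from rfl, S_succ_succ, hP, hQ, s11, S_succ_zero]
    simp
  have s22 : S P Q 2 2 = x 1 + 2 * q := by
    rw [show (2 : ℕ) = 1 + 1 from rfl, S_succ_succ, hP, hQ, s11,
      S_eq_zero_of_lt P Q 1 (1 + 1) (by omega)]
    push_cast
    ring
  have r2 := h 2 (by omega)
  unfold mu at r2
  simp only [sum_range_succ, sum_range_zero, one_mul, zero_add] at r2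
  rw [S_succ_zero, s21, s22] at r2
  have e2 : 1 + (x 1 + 2 * q) = 4 := by
    rw [zero_add] at r2
    rw [r2]
    norm_num
  have s22' : S P Q 2 2 = 3 := by
    rw [s22]
    linear_combination e2
  have s31 : S P Q 3 1 = 2 := by
    rw [show S P Q 3 1 = S P Q (2 + 1) (0 + 1) from rfl, S_succ_succ, hP, hQ,
      show S P Q 2 (0 + 1) = S P Q 2 1 from rfl, s21, S_succ_zero]
    push_cast
    ring
  have s32 : S P Q 3 2 = 6 + 2 * q + x 2 := by
    rw [show (3 : ℕ) = 2 + 1 from rfl, show S P Q (2 + 1) 2 = S P Q (2 + 1) (1 + 1) from rfl,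
      S_succ_succ, hP, hQ, show S P Q 2 (1 + 1) = S P Q 2 2 from rfl, s22', s21]
    push_cast
    ring
  have s33 : S P Q 3 3 = 3 * (3 * q + x 2) := by
    rw [show S P Q 3 3 = S P Q (2 + 1) (2 + 1) from rfl,
      S_succ_succ, hP, hQ, S_eq_zero_of_lt P Q 2 (2 + 1) (by omega), s22']
    push_cast
    ring
  have r3 := h 3 (by omega)
  unfold mu at r3
  simp only [sum_range_succ, sum_range_zero, one_mul, zero_add] at r3
  rw [S_succ_zero, s31, s32, s33] at r3
  have e3 : 8 + 11 * q + 4 * x 2 = 27 := by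
    norm_num at r3
    linear_combination r3
  have s41 : S P Q 4 1 = 6 := by
    rw [show S P Q 4 1 = S P Q (3 + 1) (0 + 1) from rfl, S_succ_succ, hP, hQ,
      show S P Q 3 (0 + 1) = S P Q 3 1 from rfl, s31, S_succ_zero]
    push_cast
    ring
  have s42 : S P Q 4 2 = 3 * (6 + 2 * q + x 2) + (x 3 + 2 * q) * 2 := by
    rw [show S P Q 4 2 = S P Q (3 + 1) (1 + 1) from rfl, S_succ_succ, hP, hQ,
      show S P Q 3 (1 + 1) = S P Q 3 2 from rfl, s32, s31]
    push_cast
    ring
  have s43 : S P Q 4 3 = 3 * (3 * (3 * q + x 2)) + (x 3 + 3 * q) * (6 + 2 * q + x 2) := by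
    rw [show S P Q 4 3 = S P Q (3 + 1) (2 + 1) from rfl, S_succ_succ, hP, hQ,
      show S P Q 3 (2 + 1) = S P Q 3 3 from rfl, s33, s32]
    push_cast
    ring
  have s44 : S P Q 4 4 = (x 3 + 4 * q) * (3 * (3 * q + x 2)) := by
    rw [show S P Q 4 4 = S P Q (3 + 1) (3 + 1) from rfl, S_succ_succ, hP, hQ,
      S_eq_zero_of_lt P Q 3 (3 + 1) (by omega), s33]
    push_cast
    ring
  have r4 := h 4 (by omega)
  unfold mu at r4
  simp only [sum_range_succ, sum_range_zero, one_mul, zero_add] at r4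
  rw [S_succ_zero, s41, s42, s43, s44] at r4
  refine ⟨by rw [← s11', s11], e2, e3, ?_⟩
  norm_num at r4
  linear_combination r4 + (-3 - x 3) * e3

theorem lin_unique {P Q : ℂ[X][X]} (h : Adm P Q) (hP : ∀ j, (P.coeff j).natDegree ≤ 1)
    (hQ : ∀ j, (Q.coeff j).natDegree ≤ 1) : P = X ∧ Q = X + C X := by
  obtain ⟨q, hq0, hq⟩ := lead_const h hP hQ
  -- one of the two does not depend on `n`
  have hcases : cf P 1 = 0 ∨ cf Q 1 = 0 := by
    by_contra hcon
    push Not at hcon
    have hdep : ∀ G : ℂ[X][X], cf G 1 ≠ 0 → ∃ j, 0 < (G.coeff j).natDegree := by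
      intro G hG
      by_contra h1
      push Not at h1
      apply hG
      ext j
      rw [cf_coeff, coeff_zero]
      exact coeff_eq_zero_of_natDegree_lt (by have := h1 j; omega)
    exact not_adm P Q (hdep P hcon.1) (hdep Q hcon.2) h
  have hP1 : cf P 1 = 0 := by
    rcases hcases with h1 | h1
    · exact h1
    · exfalso
      have hQ0 := (const_part h hP hQ).2 h1
      have h2 : S P Q 1 1 = vv Q 0 1 := by
        rw [show S P Q 1 1 = S P Q (0 + 1) (0 + 1) from rfl, S_succ_succ]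
        simp [S]
      rw [S_one_one h, vv_linear Q hQ, hQ0, h1] at h2
      simp at h2
  have hP0 : cf P 0 = X := (const_part h hP hQ).1 hP1
  have hQ1 : cf Q 1 = C q := by rw [← hq, hP1, zero_add]
  have hPv : ∀ m n : ℂ, vv P m n = m := by
    intro m n
    rw [vv_linear P hP, hP0, hP1]
    simp
  have hQv : ∀ m n : ℂ, vv Q m n = (cf Q 0).eval m + q * n := by
    intro m n
    rw [vv_linear Q hQ, hQ1, eval_C]
  set g := cf Q 0 with hg
  obtain ⟨e1, e2, e3, e4⟩ := first_rows h q (fun m => g.eval m) hPv hQv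
  set D := g.comp (X + 1) - g with hD
  have hDev : ∀ m : ℂ, D.eval m = g.eval (m + 1) - g.eval m := by
    intro m
    rw [hD]
    simp
  have d0 : D.eval 0 = 2 - q := by
    rw [hDev, zero_add]
    linear_combination e2 - e1
  have d1 : 4 * D.eval 1 = 7 - 3 * q := by
    rw [hDev, show (1 : ℂ) + 1 = 2 by norm_num]
    linear_combination e3 - 4 * e2
  have d2 : 108 * D.eval 2 = 187 - 76 * q - 3 * q ^ 2 := by
    rw [hDev, show (2 : ℂ) + 1 = 3 by norm_num]
    linear_combination 4 * e4 + (-27 - 15 * q) * e3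
  have hroots : ∀ y, D.eval y = 0 → y = -1 := fun y hy => diff_root h hP hQ hP1 y hy
  have hform := single_root (f := D) (b := D.natDegree) rfl hroots
  set c := D.leadingCoeff with hc
  set f := D.natDegree with hf
  have hDf : ∀ m : ℂ, D.eval m = c * (m + 1) ^ f := by
    intro m
    rw [hform]
    simp
  have c0 : 2 - q = c := by rw [← d0, hDf]; simp
  have c1 : 7 - 3 * q = 4 * (c * 2 ^ f) := by
    rw [← d1, hDf]
    norm_num
  have c2 : 187 - 76 * q - 3 * q ^ 2 = 108 * (c * 3 ^ f) := by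
    rw [← d2, hDf]
    norm_num
  have hqc : q = 2 - c := by linear_combination -c0
  -- `c * A = 1` with `A = 4 * 2 ^ f - 3`
  have hA : c * (4 * 2 ^ f - 3) = 1 := by
    rw [hqc] at c1
    linear_combination -c1
  have hB : 23 * (4 * 2 ^ f - 3) ^ 2 + 88 * (4 * 2 ^ f - 3) - 3 =
      108 * 3 ^ f * (4 * (2 : ℂ) ^ f - 3) := by
    rw [hqc] at c2
    have hc' : c ≠ 0 := by
      intro h0
      rw [h0, zero_mul] at hA
      exact zero_ne_one hA
    have h3 : 23 + 88 * c - 3 * c ^ 2 = 108 * (c * 3 ^ f) := by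
      linear_combination c2
    have h4 : (4 * (2 : ℂ) ^ f - 3) = c⁻¹ := by
      field_simp
      linear_combination hA
    rw [h4]
    field_simp
    linear_combination h3
  have hf0 : f = 0 := by
    have hZ : 23 * (4 * 2 ^ f - 3) ^ 2 + 88 * (4 * 2 ^ f - 3) - 3 =
        108 * 3 ^ f * (4 * (2 : ℤ) ^ f - 3) := by
      exact_mod_cast hB
    have hdvd : (4 * (2 : ℤ) ^ f - 3) ∣ 3 := by
      refine ⟨23 * (4 * 2 ^ f - 3) + 88 - 108 * 3 ^ f, ?_⟩
      linear_combination -hZ
    by_contra hne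
    have h2 : (2 : ℤ) ≤ 2 ^ f := by
      calc (2 : ℤ) = 2 ^ 1 := by norm_num
        _ ≤ 2 ^ f := pow_le_pow_right₀ (by norm_num) (by omega)
    have h3 := Int.le_of_dvd (by norm_num) hdvd
    omega
  rw [hf0] at hA hDf
  have hc1 : c = 1 := by
    rw [pow_zero] at hA
    linear_combination hA
  have hq1 : q = 1 := by rw [hqc, hc1]; norm_num
  have hg0 : g.eval 0 = 0 := by rw [hq1] at e1; linear_combination e1
  have hgn : ∀ n : ℕ, g.eval (n : ℂ) = n := by
    intro n
    induction n with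
    | zero => simpa using hg0
    | succ n ih =>
      have h1 := hDf (n : ℂ)
      rw [hDev, ih, hc1, pow_zero] at h1
      push_cast
      linear_combination h1
  have hgX : g = X := by
    refine Polynomial.eq_of_infinite_eval_eq _ _ ?_
    refine (Set.infinite_range_of_injective (Nat.cast_injective (R := ℂ))).mono ?_
    rintro _ ⟨n, rfl⟩
    show g.eval (n : ℂ) = X.eval (n : ℂ)
    rw [hgn, eval_X]
  have hext : ∀ G H : ℂ[X][X], (∀ j, (G.coeff j).natDegree ≤ 1) →
      (∀ j, (H.coeff j).natDegree ≤ 1) → cf G 0 = cf H 0 → cf G 1 = cf H 1 → G = H := by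
    intro G H hG hH h0 h1
    ext j k
    rcases Nat.lt_or_ge k 2 with hk | hk
    · interval_cases k
      · rw [← cf_coeff, ← cf_coeff, h0]
      · rw [← cf_coeff, ← cf_coeff, h1]
    · rw [coeff_eq_zero_of_natDegree_lt (by have := hG j; omega),
        coeff_eq_zero_of_natDegree_lt (by have := hH j; omega)]
  constructor
  · refine hext _ _ hP ?_ ?_ ?_
    · intro j
      rw [coeff_X]
      split_ifs <;> simp
    · rw [hP0]
      ext j
      rw [cf_coeff, coeff_X, coeff_X]
      split_ifs <;> simp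
    · rw [hP1]
      ext j
      rw [cf_coeff, coeff_X]
      split_ifs
      · rw [coeff_one]
        simp
      · simp
  · refine hext _ _ hQ ?_ ?_ ?_
    · intro j
      rw [coeff_add, coeff_X, coeff_C]
      refine (natDegree_add_le _ _).trans (max_le ?_ ?_)
      · split_ifs <;> simp
      · split_ifs <;> simp
    · rw [← hg, hgX]
      ext j
      rw [cf_coeff, coeff_add, coeff_X, coeff_X, coeff_C]
      rcases j with _ | _ | j
      · simp
      · simp
      · simp
    · rw [hQ1, hq1]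
      ext j
      rw [cf_coeff, coeff_add, coeff_X, coeff_C, coeff_C]
      rcases j with _ | _ | j
      · simp
      · simp [coeff_one]
      · simp

end Pool.Agent.ShorBoth
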