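import Pool.Agent.ShorBoth.Char0

/-!
If both coefficients depend on `n`, the row sums are not `m ^ m`.
-/

set_option autoImplicit false

namespace Pool.Agent.ShorBoth

open Polynomial Finset

/-- The coefficient of `n ^ k` as a polynomial in `m`. -/
noncomputable def cf (P : ℂ[X][X]) (k : ℕ) : ℂ[X] :=
  ∑ j ∈ range (P.natDegree + 1), C ((P.coeff j).coeff k) * X ^ j

theorem cf_coeff (P : ℂ[X][X]) (k j : ℕ) : (cf P k).coeff j = (P.coeff j).coeff k := by
  unfold cf
  rw [finsetSum_coeff]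
  simp only [coeff_C_mul_X_pow]
  rw [sum_ite_eq]
  split_ifs with h
  · rfl
  · have h1 : P.coeff j = 0 := coeff_eq_zero_of_natDegree_lt (by
      rw [mem_range] at h
      omega)
    rw [h1, coeff_zero]

theorem cf_eval (P : ℂ[X][X]) (k : ℕ) (m : ℂ) : (cf P k).eval m = (P.eval (C m)).coeff k := by
  unfold cf
  rw [eval_finsetSum, eval_eq_sum_range, finsetSum_coeff]
  refine sum_congr rfl fun j _ => ?_
  rw [eval_mul, eval_C, eval_pow, eval_X, ← C_pow, coeff_mul_C]

/-- The degree in `n`. -/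
noncomputable def nd (P : ℂ[X][X]) : ℕ := P.support.sup fun j => (P.coeff j).natDegree

theorem natDegree_eval_le (P : ℂ[X][X]) (m : ℂ) : (P.eval (C m)).natDegree ≤ nd P := by
  rw [natDegree_le_iff_coeff_eq_zero]
  intro k hk
  rw [← cf_eval]
  have h1 : cf P k = 0 := by
    ext j
    rw [cf_coeff, coeff_zero]
    by_cases hj : P.coeff j = 0
    · rw [hj, coeff_zero]
    · apply coeff_eq_zero_of_natDegree_lt
      refine lt_of_le_of_lt ?_ hk
      exact le_sup (f := fun j => (P.coeff j).natDegree) (mem_support_iff.mpr hj)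
  rw [h1, eval_zero]

theorem nd_spec (P : ℂ[X][X]) (hP : ∃ j, 0 < (P.coeff j).natDegree) : 0 < nd P ∧
    cf P (nd P) ≠ 0 := by
  obtain ⟨j, hj⟩ := hP
  have hj0 : P.coeff j ≠ 0 := by
    intro h0
    rw [h0, natDegree_zero] at hj
    exact lt_irrefl _ hj
  have h1 : (P.coeff j).natDegree ≤ nd P :=
    le_sup (f := fun j => (P.coeff j).natDegree) (mem_support_iff.mpr hj0)
  refine ⟨by omega, ?_⟩
  obtain ⟨i, hi, hi2⟩ := exists_mem_eq_sup P.support ⟨j, mem_support_iff.mpr hj0⟩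
    (fun j => (P.coeff j).natDegree)
  intro h0
  have h2 := cf_coeff P (nd P) i
  rw [h0, coeff_zero] at h2
  have h3 : nd P = (P.coeff i).natDegree := hi2
  rw [h3] at h2
  exact mem_support_iff.mp hi (leadingCoeff_eq_zero.mp h2.symm)

theorem eventually_ne (c : ℂ[X]) (hc : c ≠ 0) : ∃ I : ℕ, ∀ i, I ≤ i → c.eval (-(i : ℂ)) ≠ 0 := by
  have h1 : {i : ℕ | c.eval (-(i : ℂ)) = 0}.Finite := by
    have h2 : ({x | c.IsRoot x} : Set ℂ).Finite := finite_setOf_isRoot hc
    refine h2.preimage (f := fun i : ℕ => -(i : ℂ)) ?_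
    intro a _ b _ hab
    simpa using hab
  obtain ⟨I, hI⟩ := h1.bddAbove
  refine ⟨I + 1, fun i hi h0 => ?_⟩
  have := hI h0
  omega

theorem eventually_natDegree (P : ℂ[X][X]) (hP : ∃ j, 0 < (P.coeff j).natDegree) :
    ∃ I : ℕ, ∀ i, I ≤ i → (P.eval (C (-(i : ℂ)))).natDegree = nd P := by
  obtain ⟨I, hI⟩ := eventually_ne _ (nd_spec P hP).2
  refine ⟨I, fun i hi => le_antisymm (natDegree_eval_le _ _) ?_⟩
  refine le_natDegree_of_ne_zero ?_
  rw [← cf_eval]
  exact hI i hi

/-- A polynomial in one variable vanishing at infinitely many `-i` is zero. -/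
theorem eq_zero_of_infinite (G : ℂ[X]) (h : ∀ J : ℕ, ∃ i, J ≤ i ∧ G.eval (-(i : ℂ)) = 0) :
    G = 0 := by
  by_contra hG
  obtain ⟨I, hI⟩ := eventually_ne G hG
  obtain ⟨i, hi, h0⟩ := h I
  exact hI i hi h0

theorem single_root {f : ℂ[X]} {b : ℕ} (hb : f.natDegree = b) {x : ℂ}
    (h : ∀ y, f.eval y = 0 → y = x) : f = C f.leadingCoeff * (X - C x) ^ b := by
  have h1 : Splits f := IsAlgClosed.splits f
  have h2 := h1.eq_prod_roots
  have h3 : f.roots = Multiset.replicate b x := by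
    rw [Multiset.eq_replicate]
    constructor
    · rw [← hb]
      exact h1.natDegree_eq_card_roots.symm
    · intro y hy
      exact h y (isRoot_of_mem_roots hy)
  conv_lhs => rw [h2]
  rw [h3, Multiset.map_replicate, Multiset.prod_replicate]

theorem multiple_root_false (P : ℂ[X][X]) (hb : 2 ≤ nd P)
    (hP : ∃ j, 0 < (P.coeff j).natDegree)
    (hinf : ∀ J : ℕ, ∃ i, J ≤ i ∧
      (∀ x y, vv P (-(i : ℂ)) x = 0 → vv P (-(i : ℂ)) y = 0 → x = y) ∧
        ∀ x, vv P (-(i : ℂ)) x = 0 → vv (derivative P) (-(i : ℂ)) x ≠ 0) : False := by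
  set b := nd P with hbdef
  obtain ⟨I, hI⟩ := eventually_natDegree P hP
  obtain ⟨I', hI'⟩ := eventually_ne _ (nd_spec P hP).2
  -- structure at the good times
  have hstr : ∀ i, I ≤ i →
      (∀ x y, vv P (-(i : ℂ)) x = 0 → vv P (-(i : ℂ)) y = 0 → x = y) → ∃ x,
        vv P (-(i : ℂ)) x = 0 ∧ ∀ z, (C ((b : ℂ) ^ b) * cf P b ^ (b - 1) *
          P.map (evalRingHom z)).eval (-(i : ℂ)) =
          ((C ((b : ℂ) * z) * cf P b + cf P (b - 1)) ^ b).eval (-(i : ℂ)) ∧
        (C ((b : ℂ) * x) * cf P b + cf P (b - 1)).eval (-(i : ℂ)) = 0 := by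
    intro i hi hu
    set f := P.eval (C (-(i : ℂ))) with hf
    have hdeg : f.natDegree = b := hI i hi
    have hf0 : f ≠ 0 := by
      intro h0
      rw [h0, natDegree_zero] at hdeg
      omega
    obtain ⟨x, hx⟩ := IsAlgClosed.exists_root f (by
      rw [degree_eq_natDegree hf0, hdeg]
      have : b ≠ 0 := by omega
      exact_mod_cast this)
    have hx' : vv P (-(i : ℂ)) x = 0 := hx
    have h1 := single_root hdeg (x := x) (fun y hy => hu y x hy hx)
    set l := f.leadingCoeff with hl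
    have hcb : (cf P b).eval (-(i : ℂ)) = l := by
      rw [cf_eval, ← hf, hl, leadingCoeff, hdeg]
    have hcb1 : (cf P (b - 1)).eval (-(i : ℂ)) = -(b : ℂ) * x * l := by
      rw [cf_eval, ← hf, h1, coeff_C_mul, sub_eq_add_neg, ← C_neg, coeff_X_add_C_pow]
      have e1 : b - (b - 1) = 1 := by omega
      have e2 : b.choose (b - 1) = b := by
        have := Nat.choose_symm (n := b) (k := 1) (by omega)
        rw [this, Nat.choose_one_right]
      rw [e1, e2]
      ring
    refine ⟨x, hx', fun z => ⟨?_, ?_⟩⟩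
    · have h2 : (P.map (evalRingHom z)).eval (-(i : ℂ)) = f.eval z := by
        rw [hf, eval_map]
        have h3 := hom_eval₂ P (RingHom.id _) (evalRingHom z) (C (-(i : ℂ)))
        simp only [RingHom.comp_id, coe_evalRingHom, eval_C] at h3
        rw [← h3]
        rfl
      rw [eval_mul, eval_mul, eval_C, eval_pow, eval_pow, eval_add, eval_mul, eval_C, hcb, hcb1,
        h2, h1]
      simp only [eval_mul, eval_C, eval_pow, eval_sub, eval_X]
      have e1 : (b : ℂ) * z * l + -(b : ℂ) * x * l = (b : ℂ) * l * (z - x) := by ring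
      have e2 : l ^ (b - 1) * l = l ^ b := by
        rw [← pow_succ]
        congr 1
        omega
      rw [e1, mul_pow, mul_pow, ← e2]
      ring
    · rw [eval_add, eval_mul, eval_C, hcb, hcb1]
      ring
  -- polynomial identity
  have hid : ∀ z, C ((b : ℂ) ^ b) * cf P b ^ (b - 1) * P.map (evalRingHom z) =
      (C ((b : ℂ) * z) * cf P b + cf P (b - 1)) ^ b := by
    intro z
    rw [← sub_eq_zero]
    apply eq_zero_of_infinite
    intro J
    obtain ⟨i, hi, hu, -⟩ := hinf (max J I)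
    obtain ⟨x, -, hx⟩ := hstr i (le_trans (le_max_right _ _) hi) hu
    refine ⟨i, le_trans (le_max_left _ _) hi, ?_⟩
    rw [eval_sub, (hx z).1, sub_self]
  obtain ⟨i, hi, hu, hd⟩ := hinf (max I I')
  obtain ⟨x, hx0, hx⟩ := hstr i (le_trans (le_max_left _ _) hi) hu
  have h1 := congrArg (fun G => (derivative G).eval (-(i : ℂ))) (hid x)
  simp only [derivative_mul, derivative_C, zero_mul, zero_add, derivative_pow, eval_add,
    eval_mul, eval_pow, eval_C] at h1
  have h2 : (P.map (evalRingHom x)).eval (-(i : ℂ)) = 0 := by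
    rw [eval_map]
    have h3 := hom_eval₂ P (RingHom.id _) (evalRingHom x) (C (-(i : ℂ)))
    simp only [RingHom.comp_id, coe_evalRingHom, eval_C] at h3
    rw [← h3]
    exact hx0
  have h3 : (derivative (P.map (evalRingHom x))).eval (-(i : ℂ)) =
      vv (derivative P) (-(i : ℂ)) x := by
    rw [derivative_map, eval_map]
    have h3 := hom_eval₂ (derivative P) (RingHom.id _) (evalRingHom x) (C (-(i : ℂ)))
    simp only [RingHom.comp_id, coe_evalRingHom, eval_C] at h3
    rw [← h3]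
    rfl
  have h4 := (hx x).2
  rw [eval_add, eval_mul, eval_C] at h4
  rw [h2, h3, h4, zero_pow (by omega : b - 1 ≠ 0)] at h1
  simp only [mul_zero, zero_mul, zero_add, add_zero] at h1
  rcases mul_eq_zero.mp h1 with h5 | h5
  · rcases mul_eq_zero.mp h5 with h6 | h6
    · exact pow_ne_zero b (Nat.cast_ne_zero.mpr (by omega)) h6
    · exact pow_ne_zero _ (hI' i (le_trans (le_max_right _ _) hi)) h6
  · exact hd x hx0 h5

theorem char_zero_relation {P Q : ℂ[X][X]} (h : Adm P Q) (k : ℕ)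
    (he : E P Q (k + 1) ≠ E P Q k)
    (hf : 0 < (P.eval (C (-((k + 1 : ℕ) : ℂ)))).natDegree)
    (hg : 0 < (Q.eval (C (-((k + 1 : ℕ) : ℂ)))).natDegree) :
    (P.eval (C (-((k + 1 : ℕ) : ℂ)))).natDegree = (Q.eval (C (-((k + 1 : ℕ) : ℂ)))).natDegree ∧
    (P.eval (C (-((k + 1 : ℕ) : ℂ)))).leadingCoeff =
      -(Q.eval (C (-((k + 1 : ℕ) : ℂ)))).leadingCoeff := by
  obtain ⟨e, h1, h2⟩ := step h k
  obtain ⟨e', rfl⟩ : ∃ e', e = e' + 1 := ⟨e - 1, by omega⟩
  set c : ℂ := -((k + 1 : ℕ) : ℂ) with hc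
  set f := P.eval (C c) with hfdef
  set g := Q.eval (C c) with hgdef
  set ρ := (F P Q k).eval (C (-(k : ℂ))) with hρdef
  have hρ0 : ρ ≠ 0 := rho_ne_zero h k
  have h3 := congrArg (fun G => G.eval (C c)) h2
  simp only [Lop, eval_mul, eval_add, eval_pow, eval_sub, eval_X, eval_C, sub_self] at h3
  rw [zero_pow (by omega), zero_mul, ns_eval, eval_mul, ms_eval] at h3
  have e1 : (C c : ℂ[X]) + 1 = C (-(k : ℂ)) := by
    rw [hc, ← C_1, ← C_add]
    congr 1
    push_cast
    ring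
  rw [e1, ← hfdef, ← hgdef, ← hρdef] at h3
  have hf0 : f ≠ 0 := by
    intro h0
    rw [h0, natDegree_zero] at hf
    exact lt_irrefl _ hf
  have hg0 : g ≠ 0 := by
    intro h0
    rw [h0, natDegree_zero] at hg
    exact lt_irrefl _ hg
  have h4 : f * ρ = -((g * ρ).comp (X + 1)) := eq_neg_of_add_eq_zero_left h3.symm
  have hX : (X + 1 : ℂ[X]).natDegree = 1 := by
    rw [← C_1]
    exact natDegree_X_add_C 1
  have hXl : (X + 1 : ℂ[X]).leadingCoeff = 1 := by
    rw [← C_1]
    exact leadingCoeff_X_add_C 1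
  constructor
  · have h5 := congrArg natDegree h4
    rw [natDegree_neg, natDegree_comp, hX, mul_one, natDegree_mul hf0 hρ0,
      natDegree_mul hg0 hρ0] at h5
    omega
  · have h5 := congrArg leadingCoeff h4
    rw [leadingCoeff_neg, leadingCoeff_comp (by rw [hX]; omega), hXl, one_pow, mul_one,
      leadingCoeff_mul, leadingCoeff_mul, ← neg_mul] at h5
    exact mul_right_cancel₀ (leadingCoeff_ne_zero.mpr hρ0) h5

/-- The main theorem. -/
theorem not_adm (P Q : ℂ[X][X]) (hP : ∃ j, 0 < (P.coeff j).natDegree)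
    (hQ : ∃ j, 0 < (Q.coeff j).natDegree) : ¬ Adm P Q := by
  intro h
  obtain ⟨IP, hIP⟩ := eventually_natDegree P hP
  obtain ⟨IQ, hIQ⟩ := eventually_natDegree Q hQ
  have hP0 := (nd_spec P hP).1
  have hQ0 := (nd_spec Q hQ).1
  have hpos : ∀ k, max IP IQ ≤ k + 1 → 0 < (P.eval (C (-((k + 1 : ℕ) : ℂ)))).natDegree ∧
      0 < (Q.eval (C (-((k + 1 : ℕ) : ℂ)))).natDegree := by
    intro k hk
    rw [hIP _ (le_trans (le_max_left _ _) hk), hIQ _ (le_trans (le_max_right _ _) hk)]
    exact ⟨hP0, hQ0⟩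
  have hstep : ∀ k, max IP IQ ≤ k + 1 → nd P = nd Q ∧
      (cf P (nd P)).eval (-((k + 1 : ℕ) : ℂ)) = -(cf Q (nd P)).eval (-((k + 1 : ℕ) : ℂ)) := by
    intro k hk
    obtain ⟨hf, hg⟩ := hpos k hk
    obtain ⟨he, -⟩ := char_zero_step h k hf hg
    obtain ⟨h1, h2⟩ := char_zero_relation h k he hf hg
    have h3 := hIP _ (le_trans (le_max_left _ _) hk)
    have h4 := hIQ _ (le_trans (le_max_right _ _) hk)
    have h5 : nd P = nd Q := by rw [← h3, ← h4, h1]
    refine ⟨h5, ?_⟩
    rw [cf_eval, cf_eval]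
    have h6 := h2
    rw [leadingCoeff, leadingCoeff, h3, h4, ← h5] at h6
    exact h6
  have hnd : nd P = nd Q := (hstep (max IP IQ) (by omega)).1
  rcases Nat.lt_or_ge (nd P) 2 with hb | hb
  · -- degree one
    have hb1 : nd P = 1 := by omega
    have hb1' : nd Q = 1 := by omega
    have hsum : cf P 1 + cf Q 1 = 0 := by
      apply eq_zero_of_infinite
      intro J
      refine ⟨J + max IP IQ + 1, by omega, ?_⟩
      have h1 := (hstep (J + max IP IQ) (by omega)).2
      rw [hb1] at h1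
      rw [eval_add, h1]
      ring
    refine no_const h fun m n => ?_
    have hlin : ∀ G : ℂ[X][X], nd G = 1 → ∀ y, vv G m y =
        (cf G 0).eval m + (cf G 1).eval m * y := by
      intro G hG y
      unfold vv
      have h1 := natDegree_eval_le G m
      rw [hG] at h1
      rw [eval_eq_sum_range' (n := 2) (by omega), sum_range_succ, sum_range_one, cf_eval, cf_eval]
      ring
    have h1 := congrArg (fun G => G.eval m) hsum
    simp only [eval_add, eval_zero] at h1
    rw [hlin P hb1, hlin P hb1, hlin Q hb1', hlin Q hb1']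
    linear_combination n * h1
  · -- degree at least two
    have hgood : ∀ J : ℕ, ∃ i, J ≤ i ∧
        (((∀ x y, vv P (-(i : ℂ)) x = 0 → vv P (-(i : ℂ)) y = 0 → x = y) ∧
          ∀ x, vv P (-(i : ℂ)) x = 0 → vv (derivative P) (-(i : ℂ)) x ≠ 0) ∨
        ((∀ x y, vv Q (-(i : ℂ)) x = 0 → vv Q (-(i : ℂ)) y = 0 → x = y) ∧
          ∀ x, vv Q (-(i : ℂ)) x = 0 → vv (derivative Q) (-(i : ℂ)) x ≠ 0)) := by
      intro J
      obtain ⟨k, hk, hk2⟩ := frequently_small h (J + max IP IQ)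
      obtain ⟨hf, hg⟩ := hpos k (by omega)
      obtain ⟨he, hkey⟩ := char_zero_step h k hf hg
      refine ⟨k + 1, by omega, hkey ?_⟩
      obtain ⟨e, h1, -⟩ := step h k
      omega
    by_cases hcase : ∀ J : ℕ, ∃ i, J ≤ i ∧
        ((∀ x y, vv P (-(i : ℂ)) x = 0 → vv P (-(i : ℂ)) y = 0 → x = y) ∧
          ∀ x, vv P (-(i : ℂ)) x = 0 → vv (derivative P) (-(i : ℂ)) x ≠ 0)
    · exact multiple_root_false P hb hP hcase
    · push Not at hcase
      obtain ⟨J₀, hJ₀⟩ := hcase
      refine multiple_root_false Q (by omega) hQ fun J => ?_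
      obtain ⟨i, hi, h1 | h1⟩ := hgood (max J J₀)
      · exfalso
        obtain ⟨x, hx1, hx2⟩ := hJ₀ i (le_trans (le_max_right _ _) hi) h1.1
        exact h1.2 x hx1 hx2
      · exact ⟨i, le_trans (le_max_left _ _) hi, h1⟩

end Pool.Agent.ShorBoth
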