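import Pool.Agent.ShorBoth.ModP

/-!
The rows at the times congruent to a given time span a hyperplane.
-/

set_option autoImplicit false

namespace Pool.Agent.ShorBoth

open Finset

section

variable {p : ℕ} [hp : Fact p.Prime]

theorem coeffs_zero (x : ℕ → ZMod p)
    (h3 : ∀ a : ZMod p, a ≠ 0 → ∑ l ∈ range (p - 1), x l * a ^ l = 0) :
    ∀ l, l < p - 1 → x l = 0 := by
  set q : Polynomial (ZMod p) := ∑ l ∈ range (p - 1), Polynomial.monomial l (x l) with hq
  have hcoeff : ∀ l, l < p - 1 → q.coeff l = x l := by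
    intro l hl
    rw [hq, Polynomial.finsetSum_coeff]
    simp only [Polynomial.coeff_monomial]
    rw [sum_ite_eq']
    simp [hl]
  have hq0 : q = 0 := by
    have hcard : (univ.erase (0 : ZMod p)).card = p - 1 := by
      rw [card_erase_of_mem (mem_univ _), card_univ, ZMod.card]
    rcases Nat.eq_zero_or_pos (p - 1) with h0 | h0
    · rw [hq, h0]
      simp
    refine Polynomial.eq_zero_of_natDegree_lt_card_of_eval_eq_zero' q (univ.erase (0 : ZMod p))
      ?_ ?_
    · intro a ha
      have ha' : a ≠ 0 := (mem_erase.mp ha).1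
      have h7 := h3 a ha'
      rw [hq, Polynomial.eval_finsetSum]
      simpa [Polynomial.eval_monomial] using h7
    · rw [hcard]
      have h8 : q.natDegree ≤ p - 2 := by
        rw [hq]
        refine Polynomial.natDegree_sum_le_of_forall_le _ _ fun l hl => ?_
        refine (Polynomial.natDegree_monomial_le _).trans ?_
        have := mem_range.mp hl
        omega
      omega
  intro l hl
  rw [← hcoeff l hl, hq0, Polynomial.coeff_zero]

/-- The rows span the kernel of every nonzero annihilator. -/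
theorem span_rows (L : ZMod p → (ZMod p → ZMod p) →ₗ[ZMod p] (ZMod p → ZMod p))
    (v : ℕ → ZMod p → ZMod p) (hv : ∀ t, 1 ≤ t → v (t + 1) = L (t : ZMod p) (v t))
    (hs : ∀ t, 1 ≤ t → ∑ x, v t x = (t : ZMod p) ^ t) (t : ℕ) (ht : 1 ≤ t)
    (ρ : ZMod p → ZMod p) (hρ : ρ ≠ 0)
    (hann : ∀ l, l < p - 1 → ∑ x, ρ x * v (t + l * p) x = 0)
    (κ : ZMod p → ZMod p) (hρκ : ∑ x, ρ x * κ x = 0) :
    ∃ c : ℕ → ZMod p, κ = ∑ l ∈ range (p - 1), c l • v (t + l * p) := by
  have hp2 := hp.out.two_le
  set w : Fin (p - 1) → ZMod p → ZMod p := fun l => v (t + l.val * p) with hw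
  have hli : LinearIndependent (ZMod p) w := by
    rw [Fintype.linearIndependent_iff]
    intro g hg l
    have h1 := rows_indep L v hv hs t ht
      (fun l => if h : l < p - 1 then g ⟨l, h⟩ else 0) (by
        rw [sum_range]
        rw [← hg]
        refine sum_congr rfl fun l _ => ?_
        simp [hw])
      l.val l.isLt
    simpa using h1
  set Φ : (ZMod p → ZMod p) →ₗ[ZMod p] ZMod p :=
    { toFun := fun u => ∑ x, ρ x * u x
      map_add' := fun u u' => by
        rw [← sum_add_distrib]
        exact sum_congr rfl fun x _ => by simp only [Pi.add_apply]; ring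
      map_smul' := fun c u => by
        simp only [RingHom.id_apply, smul_eq_mul, Pi.smul_apply]
        rw [mul_sum]
        exact sum_congr rfl fun x _ => by ring } with hΦ
  have hΦ0 : Φ ≠ 0 := by
    intro h0
    apply hρ
    funext y
    have h1 := LinearMap.congr_fun h0 (Pi.single y 1)
    simp only [hΦ, LinearMap.coe_mk, AddHom.coe_mk, LinearMap.zero_apply] at h1
    rw [sum_eq_single y] at h1
    · simpa using h1
    · intro b _ hb
      rw [Pi.single_eq_of_ne hb, mul_zero]
    · intro h2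
      exact absurd (mem_univ y) h2
  have hrange : LinearMap.range Φ = ⊤ := by
    rw [LinearMap.range_eq_top]
    obtain ⟨u, hu⟩ : ∃ u, Φ u ≠ 0 := by
      by_contra hcon
      push Not at hcon
      exact hΦ0 (LinearMap.ext hcon)
    intro c
    refine ⟨(c * (Φ u)⁻¹) • u, ?_⟩
    rw [map_smul, smul_eq_mul, mul_assoc, inv_mul_cancel₀ hu, mul_one]
  have hker : Module.finrank (ZMod p) (LinearMap.ker Φ) = p - 1 := by
    have h1 := LinearMap.finrank_range_add_finrank_ker Φ
    rw [hrange, finrank_top, Module.finrank_self, Module.finrank_pi, ZMod.card] at h1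
    omega
  have hspan : Submodule.span (ZMod p) (Set.range w) = LinearMap.ker Φ := by
    apply Submodule.eq_of_le_of_finrank_eq
    · rw [Submodule.span_le]
      rintro _ ⟨l, rfl⟩
      exact hann l.val l.isLt
    · rw [hker, finrank_span_eq_card hli, Fintype.card_fin]
  have hκmem : κ ∈ Submodule.span (ZMod p) (Set.range w) := by
    rw [hspan]
    exact hρκ
  obtain ⟨c, hc⟩ := (Submodule.mem_span_range_iff_exists_fun (ZMod p)).mp hκmem
  refine ⟨fun l => if h : l < p - 1 then c ⟨l, h⟩ else 0, ?_⟩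
  rw [← hc, sum_range]
  refine sum_congr rfl fun l _ => ?_
  simp [hw]

/-- Uniqueness of the annihilator. -/
theorem ann_unique (L : ZMod p → (ZMod p → ZMod p) →ₗ[ZMod p] (ZMod p → ZMod p))
    (v : ℕ → ZMod p → ZMod p) (hv : ∀ t, 1 ≤ t → v (t + 1) = L (t : ZMod p) (v t))
    (hs : ∀ t, 1 ≤ t → ∑ x, v t x = (t : ZMod p) ^ t) (t : ℕ) (ht : 1 ≤ t)
    (ρ : ZMod p → ZMod p) (hρ : ρ ≠ 0)
    (hann : ∀ l, l < p - 1 → ∑ x, ρ x * v (t + l * p) x = 0)
    (w : ZMod p → ZMod p) (hw : ∀ l, l < p - 1 → ∑ x, w x * v (t + l * p) x = 0) :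
    ∃ c, ∀ x, w x = c * ρ x := by
  obtain ⟨x₀, hx₀⟩ : ∃ x₀, ρ x₀ ≠ 0 := by
    by_contra hcon
    push Not at hcon
    exact hρ (funext hcon)
  refine ⟨w x₀ * (ρ x₀)⁻¹, fun y => ?_⟩
  have key : ∀ f : ZMod p → ZMod p, ∑ x, f x * (ρ x₀ * (if x = y then 1 else 0) -
      ρ y * (if x = x₀ then 1 else 0)) = ρ x₀ * f y - ρ y * f x₀ := by
    intro f
    have : ∀ x ∈ (univ : Finset (ZMod p)), f x * (ρ x₀ * (if x = y then 1 else 0) -
      ρ y * (if x = x₀ then 1 else 0)) = (if x = y then ρ x₀ * f x else 0) -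
        (if x = x₀ then ρ y * f x else 0) := by
      intro x _
      split_ifs <;> ring
    rw [sum_congr rfl this, sum_sub_distrib]
    simp
  obtain ⟨c, hc⟩ := span_rows L v hv hs t ht ρ hρ hann
    (fun x => ρ x₀ * (if x = y then 1 else 0) - ρ y * (if x = x₀ then 1 else 0))
    (by rw [key]; ring)
  have h1 : ∑ x, w x * (ρ x₀ * (if x = y then 1 else 0) -
      ρ y * (if x = x₀ then 1 else 0)) = 0 := by
    have h2 : ∀ x, (ρ x₀ * (if x = y then 1 else 0) - ρ y * (if x = x₀ then 1 else 0)) =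
        ∑ l ∈ range (p - 1), c l * v (t + l * p) x := by
      intro x
      have h3 := congrFun hc x
      simp only [Finset.sum_apply, Pi.smul_apply, smul_eq_mul] at h3
      exact h3
    have h4 : ∀ x ∈ (univ : Finset (ZMod p)), w x * (ρ x₀ * (if x = y then 1 else 0) -
        ρ y * (if x = x₀ then 1 else 0)) =
        ∑ l ∈ range (p - 1), c l * (w x * v (t + l * p) x) := by
      intro x _
      rw [h2, mul_sum]
      exact sum_congr rfl fun l _ => by ring
    rw [sum_congr rfl h4, sum_comm]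
    refine sum_eq_zero fun l hl => ?_
    rw [← mul_sum, hw l (mem_range.mp hl), mul_zero]
  rw [key] at h1
  field_simp
  linear_combination h1

/-- A vector in the span of the rows which is annihilated by all iterates is zero. -/
theorem vector_zero (L : ZMod p → (ZMod p → ZMod p) →ₗ[ZMod p] (ZMod p → ZMod p))
    (v : ℕ → ZMod p → ZMod p) (hv : ∀ t, 1 ≤ t → v (t + 1) = L (t : ZMod p) (v t))
    (hs : ∀ t, 1 ≤ t → ∑ x, v t x = (t : ZMod p) ^ t) (t : ℕ) (ht : 1 ≤ t)
    (ρ : ZMod p → ZMod p) (hρ : ρ ≠ 0)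
    (hann : ∀ l, l < p - 1 → ∑ x, ρ x * v (t + l * p) x = 0)
    (u : ℕ → ZMod p → ZMod p) (hu : ∀ k l, ∑ x, u k x * v (t + l * p) x =
      ((t + l * p + k : ℕ) : ZMod p) ^ (t + l * p + k))
    (κ : ZMod p → ZMod p) (hρκ : ∑ x, ρ x * κ x = 0)
    (hκ : ∀ k, k < p → ∑ x, u k x * κ x = 0) : κ = 0 := by
  obtain ⟨c, hc⟩ := span_rows L v hv hs t ht ρ hρ hann κ hρκ
  have h0 : ∀ l, l < p - 1 → c l = 0 := by
    apply coeffs_zero
    intro a ha
    set k := (a - t).val with hk
    have hkp : k < p := ZMod.val_lt _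
    have hcast : ((t + k : ℕ) : ZMod p) = a := by
      rw [hk]
      push_cast
      rw [ZMod.natCast_zmod_val]
      ring
    have h1 := hκ k hkp
    have h2 : ∀ x ∈ (univ : Finset (ZMod p)), u k x * κ x =
        ∑ l ∈ range (p - 1), c l * (u k x * v (t + l * p) x) := by
      intro x _
      have h3 := congrFun hc x
      simp only [Finset.sum_apply, Pi.smul_apply, smul_eq_mul] at h3
      rw [h3, mul_sum]
      exact sum_congr rfl fun l _ => by ring
    rw [sum_congr rfl h2, sum_comm] at h1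
    have h4 : ∀ l ∈ range (p - 1), ∑ x, c l * (u k x * v (t + l * p) x) =
        a ^ (t + k) * (c l * a ^ l) := by
      intro l _
      rw [← mul_sum, hu]
      have e : ((t + l * p + k : ℕ) : ZMod p) = a := by
        rw [← hcast]
        simp
      rw [e, show t + l * p + k = (t + k) + p * l by ring, pow_add, pow_mul, ZMod.pow_card]
      ring
    rw [sum_congr rfl h4, ← mul_sum] at h1
    rcases mul_eq_zero.mp h1 with h6 | h6
    · exact absurd h6 (pow_ne_zero _ ha)
    · exact h6
  rw [hc]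
  exact sum_eq_zero fun l hl => by rw [h0 l (mem_range.mp hl), zero_smul]

end

end Pool.Agent.ShorBoth
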