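import Mathlib

/-!
Triangular arrays given by a polynomial recurrence over a commutative ring. A polynomial in two
variables is an element of `R[X][X]`: the outer variable is `m`, the inner one is `n`.
-/

set_option autoImplicit false

namespace Pool.Agent.ShorBoth

open Polynomial Finset

section gen

variable {R : Type*} [CommRing R]

/-- The value of `F` at `(m, n)`. -/
noncomputable def vv (F : R[X][X]) (m n : R) : R := (F.eval (C m)).eval n

theorem vv_add (F G : R[X][X]) (m n : R) : vv (F + G) m n = vv F m n + vv G m n := by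
  simp [vv]

theorem vv_mul (F G : R[X][X]) (m n : R) : vv (F * G) m n = vv F m n * vv G m n := by
  simp [vv]

theorem vv_one (m n : R) : vv (1 : R[X][X]) m n = 1 := by
  simp [vv]

theorem vv_pow (F : R[X][X]) (m n : R) (k : ℕ) : vv (F ^ k) m n = vv F m n ^ k := by
  simp [vv]

/-- Shift of `m`. -/
noncomputable def ms (F : R[X][X]) : R[X][X] := F.comp (X + 1)

/-- Shift of `n`. -/
noncomputable def ns (F : R[X][X]) : R[X][X] := F.map (compRingHom (X + 1))

theorem ms_eval (F : R[X][X]) (a : R[X]) : (ms F).eval a = F.eval (a + 1) := by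
  simp [ms, eval_comp]

theorem ns_eval (F : R[X][X]) (m : R) :
    (ns F).eval (C m) = (F.eval (C m)).comp (X + 1) := by
  have h : (C m : R[X]) = (compRingHom (X + 1 : R[X])) (C m) := by
    simp [compRingHom]
  unfold ns
  conv_lhs => rw [h]
  rw [eval_map_apply]
  rfl

theorem vv_ms (F : R[X][X]) (m n : R) : vv (ms F) m n = vv F (m + 1) n := by
  unfold vv
  rw [ms_eval]
  simp

theorem vv_ns (F : R[X][X]) (m n : R) : vv (ns F) m n = vv F m (n + 1) := by
  unfold vv
  rw [ns_eval, eval_comp]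
  simp

/-- The adjoint of the recurrence. -/
noncomputable def Lop (P Q G : R[X][X]) : R[X][X] := P * ms G + ns (Q * ms G)

theorem vv_Lop (P Q G : R[X][X]) (m n : R) : vv (Lop P Q G) m n =
    vv P m n * vv G (m + 1) n + vv Q m (n + 1) * vv G (m + 1) (n + 1) := by
  simp only [Lop, vv_add, vv_mul, vv_ns, vv_ms]

/-- The iterates of the adjoint. -/
noncomputable def T (P Q : R[X][X]) : ℕ → R[X][X]
  | 0 => 1
  | k + 1 => Lop P Q (T P Q k)

/-- The array. -/
noncomputable def S (P Q : R[X][X]) : ℕ → ℕ → R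
  | 0, 0 => 1
  | 0, _ + 1 => 0
  | _ + 1, 0 => 0
  | m + 1, n + 1 =>
      vv P (m : R) ((n : R) + 1) * S P Q m (n + 1) + vv Q (m : R) ((n : R) + 1) * S P Q m n

variable (P Q : R[X][X])

theorem S_succ_zero (m : ℕ) : S P Q (m + 1) 0 = 0 := by simp [S]

theorem S_succ_succ (m n : ℕ) : S P Q (m + 1) (n + 1) =
    vv P (m : R) ((n : R) + 1) * S P Q m (n + 1) +
      vv Q (m : R) ((n : R) + 1) * S P Q m n := by simp [S]

theorem S_eq_zero_of_lt : ∀ m n : ℕ, m < n → S P Q m n = 0 := by
  intro m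
  induction m with
  | zero =>
    intro n hn
    obtain ⟨k, rfl⟩ : ∃ k, n = k + 1 := ⟨n - 1, by omega⟩
    simp [S]
  | succ m ih =>
    intro n hn
    obtain ⟨k, rfl⟩ : ∃ k, n = k + 1 := ⟨n - 1, by omega⟩
    rw [S_succ_succ, ih _ (by omega), ih _ (by omega)]
    simp

/-- The functional `G ↦ ∑ G(n) S(t,n)`. -/
noncomputable def mu (t : ℕ) (G : ℕ → R) : R := ∑ n ∈ range (t + 1), G n * S P Q t n

theorem mu_step (t : ℕ) (ht : 1 ≤ t) (G : ℕ → R) :
    mu P Q (t + 1) G = mu P Q t (fun n =>
      vv P (t : R) (n : R) * G n + vv Q (t : R) ((n : R) + 1) * G (n + 1)) := by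
  obtain ⟨u, rfl⟩ : ∃ u, t = u + 1 := ⟨t - 1, by omega⟩
  set t := u + 1 with htdef
  unfold mu
  rw [sum_range_succ', S_succ_zero, mul_zero, add_zero]
  have h1 : ∀ n ∈ range (t + 1), G (n + 1) * S P Q (t + 1) (n + 1) =
      vv P (t : R) ((n + 1 : ℕ) : R) * G (n + 1) * S P Q t (n + 1) +
        vv Q (t : R) ((n : R) + 1) * G (n + 1) * S P Q t n := by
    intro n _
    rw [S_succ_succ]
    push_cast
    ring
  rw [sum_congr rfl h1, sum_add_distrib]
  have h2 : ∑ n ∈ range (t + 1), vv P (t : R) ((n + 1 : ℕ) : R) * G (n + 1) * S P Q t (n + 1)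
      = ∑ n ∈ range (t + 1), vv P (t : R) (n : R) * G n * S P Q t n := by
    have h3 := sum_range_succ' (fun n : ℕ => vv P (t : R) (n : R) * G n * S P Q t n) (t + 1)
    rw [sum_range_succ] at h3
    rw [S_eq_zero_of_lt P Q t (t + 1) (by omega)] at h3
    have h4 : S P Q t 0 = 0 := by rw [htdef]; exact S_succ_zero P Q u
    rw [h4] at h3
    simp only [mul_zero, add_zero] at h3
    exact h3.symm
  rw [h2, ← sum_add_distrib]
  apply sum_congr rfl
  intro n _
  ring

/-- All row sums are `t ^ t`. -/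
def Adm : Prop := ∀ t : ℕ, 1 ≤ t → mu P Q t (fun _ => 1) = (t : R) ^ t

variable {P Q}

theorem mu_T (h : Adm P Q) (k : ℕ) : ∀ t : ℕ, 1 ≤ t →
    mu P Q t (fun n => vv (T P Q k) (t : R) (n : R)) = ((t : R) + k) ^ (t + k) := by
  induction k with
  | zero =>
    intro t ht
    have := h t ht
    simpa [T, vv_one] using this
  | succ k ih =>
    intro t ht
    have h1 := ih (t + 1) (by omega)
    rw [mu_step P Q t ht] at h1
    have h2 : (fun n : ℕ => vv (T P Q (k + 1)) (t : R) (n : R)) = (fun n : ℕ =>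
        vv P (t : R) (n : R) * vv (T P Q k) ((t + 1 : ℕ) : R) (n : R) +
          vv Q (t : R) ((n : R) + 1) * vv (T P Q k) ((t + 1 : ℕ) : R) ((n + 1 : ℕ) : R)) := by
      funext n
      rw [T, vv_Lop]
      push_cast
      ring
    rw [h2, h1]
    have e : t + 1 + k = t + (k + 1) := by omega
    rw [e]
    push_cast
    ring

theorem mu_congr {t : ℕ} {G G' : ℕ → R} (h : ∀ n, G n = G' n) : mu P Q t G = mu P Q t G' := by
  unfold mu
  exact sum_congr rfl fun n _ => by rw [h n]

theorem mu_smul (t : ℕ) (c : R) (G : ℕ → R) :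
    mu P Q t (fun n => c * G n) = c * mu P Q t G := by
  unfold mu
  rw [mul_sum]
  exact sum_congr rfl fun n _ => by ring

/-- The first row. -/
theorem S_one_one (h : Adm P Q) : S P Q 1 1 = 1 := by
  have := h 1 le_rfl
  unfold mu at this
  rw [sum_range_succ, sum_range_one, S_succ_zero] at this
  simpa using this

theorem T_one_one (h : Adm P Q) (k : ℕ) : vv (T P Q k) 1 1 = ((k : R) + 1) ^ (k + 1) := by
  have h1 := mu_T h k 1 le_rfl
  unfold mu at h1
  rw [sum_range_succ, sum_range_one, S_succ_zero, S_one_one h] at h1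
  simp only [mul_zero, zero_add, mul_one, Nat.cast_one] at h1
  rw [h1, add_comm 1 k, add_comm (1 : R)]

end gen

section map

variable {R R' : Type*} [CommRing R] [CommRing R'] (φ : R →+* R')

/-- Base change. -/
noncomputable def bc (F : R[X][X]) : R'[X][X] := F.map (mapRingHom φ)

theorem bc_mul (F G : R[X][X]) : bc φ (F * G) = bc φ F * bc φ G := by simp [bc]

theorem bc_add (F G : R[X][X]) : bc φ (F + G) = bc φ F + bc φ G := by simp [bc]

theorem bc_eval (F : R[X][X]) (a : R) : (bc φ F).eval (C (φ a)) = (F.eval (C a)).map φ := by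
  have h : (C (φ a) : R'[X]) = mapRingHom φ (C a) := by simp
  unfold bc
  rw [h, eval_map_apply]
  rfl

theorem vv_bc (F : R[X][X]) (m n : R) : vv (bc φ F) (φ m) (φ n) = φ (vv F m n) := by
  unfold vv
  rw [bc_eval, eval_map_apply]

theorem bc_ms (F : R[X][X]) : bc φ (ms F) = ms (bc φ F) := by
  unfold bc ms
  rw [map_comp]
  simp

theorem bc_ns (F : R[X][X]) : bc φ (ns F) = ns (bc φ F) := by
  unfold bc ns
  rw [Polynomial.map_map, Polynomial.map_map]
  congr 1
  ext a
  · simp
  · simp

theorem bc_Lop (P Q G : R[X][X]) : bc φ (Lop P Q G) = Lop (bc φ P) (bc φ Q) (bc φ G) := by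
  unfold Lop
  rw [bc_add, bc_mul, bc_ms, bc_ns, bc_mul, bc_ms]

theorem bc_T (P Q : R[X][X]) (k : ℕ) : bc φ (T P Q k) = T (bc φ P) (bc φ Q) k := by
  induction k with
  | zero => simp [T, bc]
  | succ k ih =>
    rw [T, T, bc_Lop, ih]

theorem bc_derivative (F : R[X][X]) : bc φ (derivative F) = derivative (bc φ F) := by
  unfold bc
  rw [derivative_map]

theorem map_S (P Q : R[X][X]) : ∀ m n : ℕ, φ (S P Q m n) = S (bc φ P) (bc φ Q) m n := by
  intro m
  induction m with
  | zero =>
    intro n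
    cases n <;> simp [S]
  | succ m ih =>
    intro n
    cases n with
    | zero => simp [S]
    | succ n =>
      rw [S_succ_succ, S_succ_succ, map_add, map_mul, map_mul, ih, ih, ← vv_bc, ← vv_bc]
      simp

theorem map_mu (P Q : R[X][X]) (t : ℕ) (G : ℕ → R) :
    φ (mu P Q t G) = mu (bc φ P) (bc φ Q) t (fun n => φ (G n)) := by
  unfold mu
  rw [map_sum]
  exact sum_congr rfl fun n _ => by rw [map_mul, map_S]

theorem adm_map {P Q : R[X][X]} (h : Adm P Q) : Adm (bc φ P) (bc φ Q) := by
  intro t ht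
  have h1 := congrArg φ (h t ht)
  rw [map_mu] at h1
  simpa using h1

theorem adm_of_map {P Q : R[X][X]} (hφ : Function.Injective φ) (h : Adm (bc φ P) (bc φ Q)) :
    Adm P Q := by
  intro t ht
  apply hφ
  rw [map_mu]
  have h1 := h t ht
  simpa using h1

end map

end Pool.Agent.ShorBoth
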