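import Pool.Agent.ShorRec.Defs
import Pool.Agent.ShorBoth.Rec

/-!
From polynomials in two variables to polynomials in `m` over polynomials in `n`.
-/

set_option autoImplicit false

namespace Pool.Agent.ShorBoth

open Polynomial Pool.Agent.ShorRec

/-- A polynomial in two variables as a polynomial in `m` over polynomials in `n`. -/
noncomputable def toBi : MvPolynomial (Fin 2) ℂ →+* ℂ[X][X] :=
  MvPolynomial.eval₂Hom ((C : ℂ[X] →+* ℂ[X][X]).comp (C : ℂ →+* ℂ[X])) ![X, C X]

theorem vv_toBi (F : MvPolynomial (Fin 2) ℂ) (m n : ℂ) :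
    vv (toBi F) m n = MvPolynomial.eval ![m, n] F := by
  have h : ((evalRingHom n).comp ((evalRingHom (C m : ℂ[X])).comp toBi)) =
      (MvPolynomial.eval ![m, n] : MvPolynomial (Fin 2) ℂ →+* ℂ) := by
    apply MvPolynomial.ringHom_ext
    · intro r
      simp [toBi]
    · intro i
      fin_cases i <;> simp [toBi]
  exact RingHom.congr_fun h F

theorem val_eq (F : MvPolynomial (Fin 2) ℂ) (m n : ℕ) :
    val F m n = vv (toBi F) (m : ℂ) (n : ℂ) := (vv_toBi F m n).symm

theorem S_eq (P Q : MvPolynomial (Fin 2) ℂ) : ∀ m n : ℕ,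
    Pool.Agent.ShorRec.S P Q m n = Pool.Agent.ShorBoth.S (toBi P) (toBi Q) m n := by
  intro m
  induction m with
  | zero =>
    intro n
    cases n <;> simp [Pool.Agent.ShorRec.S, Pool.Agent.ShorBoth.S]
  | succ m ih =>
    intro n
    cases n with
    | zero => simp [Pool.Agent.ShorRec.S, Pool.Agent.ShorBoth.S]
    | succ n =>
      rw [Pool.Agent.ShorRec.S_succ_succ, Pool.Agent.ShorBoth.S_succ_succ, ih, ih, val_eq, val_eq]
      push_cast
      ring

theorem adm_of_admissible {P Q : MvPolynomial (Fin 2) ℂ} (h : Admissible P Q) :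
    Adm (toBi P) (toBi Q) := by
  intro t ht
  obtain ⟨u, rfl⟩ : ∃ u, t = u + 1 := ⟨t - 1, by omega⟩
  rw [← h (u + 1) ht]
  unfold mu
  rw [Finset.sum_range_succ', Pool.Agent.ShorBoth.S_succ_zero, mul_zero, add_zero]
  rw [show Finset.Icc 1 (u + 1) = (Finset.range (u + 1)).image (fun n => n + 1) from ?_]
  · rw [Finset.sum_image (by intro a _ b _ h; exact Nat.succ.inj h)]
    refine Finset.sum_congr rfl fun n _ => ?_
    rw [one_mul, S_eq]
  · ext x
    simp only [Finset.mem_Icc, Finset.mem_image, Finset.mem_range]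
    constructor
    · rintro ⟨h1, h2⟩
      exact ⟨x - 1, by omega, by omega⟩
    · rintro ⟨y, hy, rfl⟩
      omega

theorem toBi_coeff (F : MvPolynomial (Fin 2) ℂ) (d : Fin 2 →₀ ℕ) :
    ((toBi F).coeff (d 0)).coeff (d 1) = F.coeff d := by
  classical
  induction F using MvPolynomial.induction_on' with
  | monomial e c =>
    have h1 : toBi (MvPolynomial.monomial e c) = C (C c * X ^ e 1) * X ^ e 0 := by
      unfold toBi
      rw [MvPolynomial.eval₂Hom_monomial, Finsupp.prod_fintype _ _ (by simp)]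
      simp only [Fin.prod_univ_two, RingHom.comp_apply, C_mul, C_pow]
      simp only [Matrix.cons_val_zero, Matrix.cons_val_one]
      ring
    rw [h1, coeff_C_mul_X_pow, MvPolynomial.coeff_monomial]
    by_cases h0 : d 0 = e 0
    · rw [if_pos h0, coeff_C_mul_X_pow]
      by_cases h2 : d 1 = e 1
      · rw [if_pos h2, if_pos]
        ext i
        fin_cases i
        · exact h0.symm
        · exact h2.symm
      · rw [if_neg h2, if_neg]
        rintro rfl
        exact h2 rfl
    · rw [if_neg h0, if_neg, coeff_zero]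
      rintro rfl
      exact h0 rfl
  | add p q hp hq =>
    rw [map_add, coeff_add, coeff_add, hp, hq, MvPolynomial.coeff_add]

theorem exists_coeff (F : MvPolynomial (Fin 2) ℂ) (hF : F.degreeOf 1 ≠ 0) :
    ∃ j, 0 < ((toBi F).coeff j).natDegree := by
  rw [MvPolynomial.degreeOf_eq_sup] at hF
  obtain ⟨d, hd, hd2⟩ : ∃ d ∈ F.support, d 1 ≠ 0 := by
    by_contra hcon
    push Not at hcon
    apply hF
    rw [← Nat.bot_eq_zero, Finset.sup_eq_bot_iff]
    exact hcon
  refine ⟨d 0, lt_of_lt_of_le (Nat.pos_of_ne_zero hd2) (le_natDegree_of_ne_zero ?_)⟩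
  rw [toBi_coeff]
  exact MvPolynomial.mem_support_iff.mp hd

theorem toBi_injective : Function.Injective toBi := by
  intro F G h
  ext d
  rw [← toBi_coeff, ← toBi_coeff, h]

/-- The exponent with given values. -/
theorem exists_exponent (j k : ℕ) : ∃ d : Fin 2 →₀ ℕ, d 0 = j ∧ d 1 = k := by
  refine ⟨Finsupp.single 0 j + Finsupp.single 1 k, ?_, ?_⟩
  · simp
  · simp

theorem toBi_natDegree (F : MvPolynomial (Fin 2) ℂ) (b : ℕ) (hF : F.degreeOf 1 ≤ b) (j : ℕ) :
    ((toBi F).coeff j).natDegree ≤ b := by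
  rw [natDegree_le_iff_coeff_eq_zero]
  intro k hk
  obtain ⟨d, rfl, rfl⟩ := exists_exponent j k
  rw [toBi_coeff]
  by_contra hne
  have h1 := MvPolynomial.monomial_le_degreeOf 1 (MvPolynomial.mem_support_iff.mpr hne)
  omega

end Pool.Agent.ShorBoth
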