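import Mathlib
import Pool.Agent.DMLR.Cassels

/-!
Homomorphisms from subrings of `ℂ` to prime fields.
-/

set_option autoImplicit false

namespace Pool.Agent.ShorBoth

open Pool.Agent.DMLR

/-- Every finite set of complex numbers lies in a subring of `ℂ` which has a homomorphism to
`ZMod p`, for arbitrarily large primes `p`. -/
theorem exists_hom (s : Finset ℂ) (N : ℕ) : ∃ p : ℕ, N < p ∧ ∃ _ : Fact p.Prime,
    ∃ V : Subring ℂ, (∀ x ∈ s, x ∈ V) ∧ Nonempty (V →+* ZMod p) := by
  classical
  set K : IntermediateField ℚ ℂ := IntermediateField.adjoin ℚ (s : Set ℂ) with hK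
  have hfg : K.FG := IntermediateField.fg_adjoin_finset s
  set E : Finset K := s.attach.image
    (fun x => (⟨x.1, IntermediateField.subset_adjoin ℚ (s : Set ℂ) x.2⟩ : K)) with hE
  obtain ⟨p, hp, hF, τ, hτ⟩ := manyPadicInt_of_fg hfg E (N + 1)
  refine ⟨p, hp, hF, ?_⟩
  set W : Subring K := (PadicInt.subring p).comap τ with hW
  set j : K →+* ℂ := algebraMap K ℂ with hj
  have hjinj : Function.Injective j := j.injective
  refine ⟨W.map j, ?_, ?_⟩
  · intro x hx
    refine Subring.mem_map.mpr ⟨⟨x, IntermediateField.subset_adjoin ℚ (s : Set ℂ) hx⟩, ?_, rfl⟩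
    refine hτ _ ?_
    rw [hE, Finset.mem_image]
    exact ⟨⟨x, hx⟩, Finset.mem_attach _ _, rfl⟩
  · have e := (W.equivMapOfInjective j hjinj).symm
    let ψ : W →+* ℤ_[p] :=
      { toFun := fun w => ⟨τ w.1, w.2⟩
        map_one' := Subtype.ext (by simp)
        map_zero' := Subtype.ext (by simp)
        map_add' := fun a b => Subtype.ext (by simp)
        map_mul' := fun a b => Subtype.ext (by simp) }
    exact ⟨(PadicInt.toZMod.comp ψ).comp e.toRingHom⟩

end Pool.Agent.ShorBoth
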