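import Pool.Agent.ShorBoth.Fac
import Pool.Agent.ShorBoth.Hom

/-!
Consequences in characteristic zero.
-/

set_option autoImplicit false

namespace Pool.Agent.ShorBoth

open Polynomial Finset

/-- The finite set of coefficients. -/
noncomputable def coefs (P : ℂ[X][X]) : Finset ℂ :=
  P.support.biUnion fun j => (P.coeff j).support.image fun k => (P.coeff j).coeff k

theorem exists_lift (V : Subring ℂ) (P : ℂ[X][X]) (h : ∀ x ∈ coefs P, x ∈ V) :
    ∃ P' : V[X][X], bc V.subtype P' = P := by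
  have h1 : P ∈ lifts (mapRingHom V.subtype) := by
    rw [lifts_iff_coeff_lifts]
    intro j
    have h2 : P.coeff j ∈ lifts V.subtype := by
      rw [lifts_iff_coeff_lifts]
      intro k
      by_cases hj : P.coeff j = 0
      · exact ⟨0, by rw [hj]; simp⟩
      by_cases hk : (P.coeff j).coeff k = 0
      · exact ⟨0, by rw [hk]; simp⟩
      refine ⟨⟨(P.coeff j).coeff k, h _ ?_⟩, rfl⟩
      unfold coefs
      rw [mem_biUnion]
      refine ⟨j, mem_support_iff.mpr hj, ?_⟩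
      rw [mem_image]
      exact ⟨k, mem_support_iff.mpr hk, rfl⟩
    rw [mem_lifts] at h2
    obtain ⟨q, hq⟩ := h2
    exact ⟨q, hq⟩
  rw [mem_lifts] at h1
  obtain ⟨q, hq⟩ := h1
  exact ⟨q, hq⟩

theorem lift_roots {p : ℕ} [hp : Fact p.Prime] (V : Subring ℂ) (φ : V →+* ZMod p)
    (P : ℂ[X][X]) (P' : V[X][X]) (hP' : bc V.subtype P' = P) (i : ℕ) (n₀ : ZMod p)
    (hder : vv (bc φ (derivative P')) (-(i : ZMod p)) n₀ ≠ 0)
    (huniq : ∀ x, vv (bc φ P') (-(i : ZMod p)) x = 0 → x = n₀)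
    (hmem : ∀ x, vv P (-(i : ℂ)) x = 0 → x ∈ V)
    (hdiff : ∀ x y, vv P (-(i : ℂ)) x = 0 → vv P (-(i : ℂ)) y = 0 → (x - y)⁻¹ ∈ V) :
    (∀ x y, vv P (-(i : ℂ)) x = 0 → vv P (-(i : ℂ)) y = 0 → x = y) ∧
      ∀ x, vv P (-(i : ℂ)) x = 0 → vv (derivative P) (-(i : ℂ)) x ≠ 0 := by
  have key : ∀ G : V[X][X], ∀ x : V, V.subtype (vv G (-(i : V)) x) =
      vv (bc V.subtype G) (-(i : ℂ)) (x : ℂ) := by
    intro G x
    rw [← vv_bc]
    simp
  have key2 : ∀ G : V[X][X], ∀ x : V, φ (vv G (-(i : V)) x) =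
      vv (bc φ G) (-(i : ZMod p)) (φ x) := by
    intro G x
    rw [← vv_bc]
    simp
  have hroot : ∀ x (hx : vv P (-(i : ℂ)) x = 0), φ ⟨x, hmem x hx⟩ = n₀ := by
    intro x hx
    apply huniq
    rw [← key2]
    have h1 : vv P' (-(i : V)) ⟨x, hmem x hx⟩ = 0 := by
      apply Subtype.val_injective
      have h2 := key P' ⟨x, hmem x hx⟩
      rw [hP'] at h2
      exact h2.trans hx
    rw [h1, map_zero]
  constructor
  · intro x y hx hy
    by_contra hne
    have h1 : (⟨x, hmem x hx⟩ - ⟨y, hmem y hy⟩ : V) * ⟨(x - y)⁻¹, hdiff x y hx hy⟩ = 1 := by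
      apply Subtype.val_injective
      show (x - y) * (x - y)⁻¹ = 1
      exact mul_inv_cancel₀ (sub_ne_zero.mpr hne)
    have h2 := congrArg φ h1
    rw [map_mul, map_sub, hroot x hx, hroot y hy, sub_self, zero_mul, map_one] at h2
    exact zero_ne_one h2
  · intro x hx h0
    apply hder
    rw [← hroot x hx, ← key2]
    have h1 : vv (derivative P') (-(i : V)) ⟨x, hmem x hx⟩ = 0 := by
      apply Subtype.val_injective
      have h2 := key (derivative P') ⟨x, hmem x hx⟩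
      rw [bc_derivative, hP'] at h2
      exact h2.trans h0
    rw [h1, map_zero]

theorem char_zero_step {P Q : ℂ[X][X]} (h : Adm P Q) (k : ℕ)
    (hf : 0 < (P.eval (C (-((k + 1 : ℕ) : ℂ)))).natDegree)
    (hg : 0 < (Q.eval (C (-((k + 1 : ℕ) : ℂ)))).natDegree) :
    E P Q (k + 1) ≠ E P Q k ∧ (E P Q (k + 1) = E P Q k + 1 →
      ((∀ x y, vv P (-((k + 1 : ℕ) : ℂ)) x = 0 → vv P (-((k + 1 : ℕ) : ℂ)) y = 0 → x = y) ∧
        ∀ x, vv P (-((k + 1 : ℕ) : ℂ)) x = 0 →
          vv (derivative P) (-((k + 1 : ℕ) : ℂ)) x ≠ 0) ∨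
      ((∀ x y, vv Q (-((k + 1 : ℕ) : ℂ)) x = 0 → vv Q (-((k + 1 : ℕ) : ℂ)) y = 0 → x = y) ∧
        ∀ x, vv Q (-((k + 1 : ℕ) : ℂ)) x = 0 →
          vv (derivative Q) (-((k + 1 : ℕ) : ℂ)) x ≠ 0)) := by
  classical
  set c : ℂ := -((k + 1 : ℕ) : ℂ) with hc
  set f := P.eval (C c) with hfdef
  set g := Q.eval (C c) with hgdef
  set ρ := (F P Q (k + 1)).eval (C c) with hρdef
  have hρ0 : ρ ≠ 0 := rho_ne_zero h (k + 1)
  have hf0 : f ≠ 0 := by
    intro h0
    rw [h0, natDegree_zero] at hf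
    exact lt_irrefl _ hf
  have hg0 : g ≠ 0 := by
    intro h0
    rw [h0, natDegree_zero] at hg
    exact lt_irrefl _ hg
  obtain ⟨p, hpN, hF, V, hV, ⟨φ⟩⟩ := exists_hom
    (coefs P ∪ (coefs Q ∪ (f.roots.toFinset ∪ (g.roots.toFinset ∪
      ((f.roots.toFinset ×ˢ f.roots.toFinset).image (fun a => (a.1 - a.2)⁻¹) ∪
        ((g.roots.toFinset ×ˢ g.roots.toFinset).image (fun a => (a.1 - a.2)⁻¹) ∪
          {(ρ.leadingCoeff)⁻¹})))))) (max (E P Q (k + 1)) ρ.natDegree)
  simp only [mem_union] at hV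
  have hVP : ∀ x ∈ coefs P, x ∈ V := fun x hx => hV x (Or.inl hx)
  have hVQ : ∀ x ∈ coefs Q, x ∈ V := fun x hx => hV x (Or.inr (Or.inl hx))
  have hVf : ∀ x, vv P c x = 0 → x ∈ V := by
    intro x hx
    refine hV x (Or.inr (Or.inr (Or.inl ?_)))
    rw [Multiset.mem_toFinset, mem_roots hf0]
    exact hx
  have hVg : ∀ x, vv Q c x = 0 → x ∈ V := by
    intro x hx
    refine hV x (Or.inr (Or.inr (Or.inr (Or.inl ?_))))
    rw [Multiset.mem_toFinset, mem_roots hg0]
    exact hx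
  have hVf2 : ∀ x y, vv P c x = 0 → vv P c y = 0 → (x - y)⁻¹ ∈ V := by
    intro x y hx hy
    refine hV _ (Or.inr (Or.inr (Or.inr (Or.inr (Or.inl ?_)))))
    rw [mem_image]
    refine ⟨(x, y), ?_, rfl⟩
    rw [mem_product, Multiset.mem_toFinset, Multiset.mem_toFinset, mem_roots hf0,
      mem_roots hf0]
    exact ⟨hx, hy⟩
  have hVg2 : ∀ x y, vv Q c x = 0 → vv Q c y = 0 → (x - y)⁻¹ ∈ V := by
    intro x y hx hy
    refine hV _ (Or.inr (Or.inr (Or.inr (Or.inr (Or.inr (Or.inl ?_))))))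
    rw [mem_image]
    refine ⟨(x, y), ?_, rfl⟩
    rw [mem_product, Multiset.mem_toFinset, Multiset.mem_toFinset, mem_roots hg0,
      mem_roots hg0]
    exact ⟨hx, hy⟩
  have hVρ : (ρ.leadingCoeff)⁻¹ ∈ V :=
    hV _ (Or.inr (Or.inr (Or.inr (Or.inr (Or.inr (Or.inr (mem_singleton_self _)))))))
  obtain ⟨P', hP'⟩ := exists_lift V P hVP
  obtain ⟨Q', hQ'⟩ := exists_lift V Q hVQ
  have hinj : Function.Injective V.subtype := Subtype.val_injective
  have hadm : Adm P' Q' := adm_of_map V.subtype hinj (by rw [hP', hQ']; exact h)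
  have hE : ∀ i, E P' Q' i = E P Q i := by
    intro i
    rw [← E_map V.subtype hinj i, hP', hQ']
  have hFm : bc V.subtype (F P' Q' (k + 1)) = F P Q (k + 1) := by
    rw [F_map V.subtype hinj, hP', hQ']
  have key : ∀ G : V[X][X], ∀ x : V, V.subtype (vv G (-((k + 1 : ℕ) : V)) x) =
      vv (bc V.subtype G) c (x : ℂ) := by
    intro G x
    rw [← vv_bc, hc]
    simp
  have key2 : ∀ G : V[X][X], ∀ x : V, φ (vv G (-((k + 1 : ℕ) : V)) x) =
      vv (bc φ G) (-((k + 1 : ℕ) : ZMod p)) (φ x) := by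
    intro G x
    rw [← vv_bc]
    simp
  set ρ' : V[X] := (F P' Q' (k + 1)).eval (C (-((k + 1 : ℕ) : V))) with hρ'
  have hρmap : ρ'.map V.subtype = ρ := by
    rw [hρ', ← bc_eval, hFm, hρdef, hc]
    simp
  have hρφ : ∀ x, rb φ P' Q' (k + 1) x = (ρ'.map φ).eval x := by
    intro x
    rw [hρ', ← bc_eval]
    unfold rb vv
    simp
  have hrb : rb φ P' Q' (k + 1) ≠ 0 := by
    intro h0
    have h1 : ρ'.map φ = 0 := by
      refine Polynomial.eq_zero_of_natDegree_lt_card_of_eval_eq_zero' (ρ'.map φ)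
        (univ : Finset (ZMod p)) ?_ ?_
      · intro x _
        rw [← hρφ, h0]
        rfl
      · rw [card_univ, ZMod.card]
        refine lt_of_le_of_lt (natDegree_map_le) ?_
        rw [← natDegree_map_eq_of_injective hinj, hρmap]
        exact lt_of_le_of_lt (le_max_right _ _) hpN
    have h2 : φ (ρ'.coeff ρ.natDegree) = 0 := by
      rw [← coeff_map, h1, coeff_zero]
    have h3 : (ρ'.coeff ρ.natDegree : V) * ⟨(ρ.leadingCoeff)⁻¹, hVρ⟩ = 1 := by
      apply hinj
      rw [map_mul, ← coeff_map, hρmap, map_one]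
      show ρ.leadingCoeff * (ρ.leadingCoeff)⁻¹ = 1
      exact mul_inv_cancel₀ (leadingCoeff_ne_zero.mpr hρ0)
    have h4 := congrArg φ h3
    rw [map_mul, h2, zero_mul, map_one] at h4
    exact zero_ne_one h4
  have hfroot : ∃ x, vv (bc φ P') (-((k + 1 : ℕ) : ZMod p)) x = 0 := by
    obtain ⟨x, hx⟩ := IsAlgClosed.exists_root f (by
      rw [degree_eq_natDegree hf0]
      exact_mod_cast hf.ne')
    have hx' : vv P c x = 0 := hx
    refine ⟨φ ⟨x, hVf x hx'⟩, ?_⟩
    rw [← key2]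
    have h1 : vv P' (-((k + 1 : ℕ) : V)) ⟨x, hVf x hx'⟩ = 0 := by
      apply hinj
      rw [key, hP', map_zero]
      exact hx'
    rw [h1, map_zero]
  have hgroot : ∃ x, vv (bc φ Q') (-((k + 1 : ℕ) : ZMod p)) x = 0 := by
    obtain ⟨x, hx⟩ := IsAlgClosed.exists_root g (by
      rw [degree_eq_natDegree hg0]
      exact_mod_cast hg.ne')
    have hx' : vv Q c x = 0 := hx
    refine ⟨φ ⟨x, hVg x hx'⟩, ?_⟩
    rw [← key2]
    have h1 : vv Q' (-((k + 1 : ℕ) : V)) ⟨x, hVg x hx'⟩ = 0 := by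
      apply hinj
      rw [key, hQ', map_zero]
      exact hx'
    rw [h1, map_zero]
  obtain ⟨m1, m2⟩ := modular φ hadm k
    (by rw [hE]; exact lt_of_le_of_lt (le_max_left _ _) hpN) hrb hfroot hgroot
  rw [hE, hE] at m1 m2
  refine ⟨m1, fun he => ?_⟩
  obtain ⟨n₀, h1 | h1⟩ := m2 he
  · left
    exact lift_roots V φ P P' hP' (k + 1) n₀ h1.2.1 h1.2.2 hVf hVf2
  · right
    exact lift_roots V φ Q Q' hQ' (k + 1) n₀ h1.2.1 h1.2.2 hVg hVg2

/-- The exponent increases by at most one infinitely often. -/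
theorem frequently_small {P Q : ℂ[X][X]} (h : Adm P Q) (I : ℕ) :
    ∃ k, I ≤ k ∧ E P Q (k + 1) ≤ E P Q k + 1 := by
  classical
  by_contra hcon
  push Not at hcon
  have h1 : ∀ d, 2 * d ≤ E P Q (I + d) := by
    intro d
    induction d with
    | zero => omega
    | succ d ih =>
      have := hcon (I + d) (by omega)
      have e : I + (d + 1) = I + d + 1 := by omega
      rw [e]
      omega
  obtain ⟨p, hpN, hF, V, hV, ⟨φ⟩⟩ := exists_hom (coefs P ∪ coefs Q) (2 * I + 3)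
  obtain ⟨P', hP'⟩ := exists_lift V P fun x hx => hV x (mem_union_left _ hx)
  obtain ⟨Q', hQ'⟩ := exists_lift V Q fun x hx => hV x (mem_union_right _ hx)
  have hinj : Function.Injective V.subtype := Subtype.val_injective
  have hadm : Adm P' Q' := adm_of_map V.subtype hinj (by rw [hP', hQ']; exact h)
  have hE : ∀ i, E P' Q' i = E P Q i := by
    intro i
    rw [← E_map V.subtype hinj i, hP', hQ']
  obtain ⟨d, hd⟩ : ∃ d, E P' Q' (p - 1) = p + (d + 1) := by
    refine ⟨E P' Q' (p - 1) - (p + 1), ?_⟩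
    have h2 := h1 (p - 1 - I)
    have e : I + (p - 1 - I) = p - 1 := by omega
    rw [e, ← hE] at h2
    omega
  have h2 := T_one_one hadm (p - 1)
  rw [← T_eq P' Q' (p - 1), vv_mul, vv_pow, hd] at h2
  have hpc : (((p - 1 : ℕ) : V) + 1) = (p : V) := by
    have : ((p - 1 + 1 : ℕ) : V) = (p : V) := by
      congr 1
      have := hF.out.one_lt
      omega
    push_cast at this
    exact this
  have h3 : vv ((X - C (C (-((p - 1 : ℕ) : V))))) 1 1 = (p : V) := by
    rw [← hpc]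
    simp only [vv, eval_sub, eval_X, eval_C]
    ring
  have e : p - 1 + 1 = p := by
    have := hF.out.one_lt
    omega
  rw [h3, hpc, e, pow_add, mul_assoc] at h2
  have hp0 : (p : V) ^ p ≠ 0 := pow_ne_zero _ (Nat.cast_ne_zero.mpr hF.out.ne_zero)
  have h4 : (p : V) ^ (d + 1) * vv (F P' Q' (p - 1)) 1 1 = 1 := by
    apply mul_left_cancel₀ hp0
    rw [h2, mul_one]
  have h5 := congrArg φ h4
  rw [map_mul, map_pow, map_natCast, CharP.cast_eq_zero, zero_pow (by omega), zero_mul,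
    map_one] at h5
  exact zero_ne_one h5

/-- The sum of the two coefficients depends on `n`. -/
theorem no_const {P Q : ℂ[X][X]} (h : Adm P Q)
    (hc : ∀ m n : ℂ, vv P m n + vv Q m (n + 1) = vv P m 0 + vv Q m 1) : False := by
  classical
  obtain ⟨p, hpN, hF, V, hV, ⟨φ⟩⟩ := exists_hom (coefs P ∪ coefs Q) 2
  obtain ⟨P', hP'⟩ := exists_lift V P fun x hx => hV x (mem_union_left _ hx)
  obtain ⟨Q', hQ'⟩ := exists_lift V Q fun x hx => hV x (mem_union_right _ hx)
  have hinj : Function.Injective V.subtype := Subtype.val_injective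
  have hadm : Adm P' Q' := adm_of_map V.subtype hinj (by rw [hP', hQ']; exact h)
  have hp1 := hF.out.one_lt
  have h1 := hadm (p + 1) (by omega)
  rw [mu_step P' Q' p (by omega)] at h1
  have h2 : mu P' Q' p (fun n => vv P' (p : V) (n : V) * 1 +
      vv Q' (p : V) ((n : V) + 1) * 1) =
      mu P' Q' p (fun _ => (vv P' (p : V) 0 + vv Q' (p : V) 1) * 1) := by
    refine mu_congr fun n => ?_
    rw [mul_one, mul_one, mul_one]
    apply hinj
    have h3 := hc (p : ℂ) (n : ℂ)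
    rw [← hP', ← hQ'] at h3
    have e1 : (p : ℂ) = V.subtype (p : V) := by simp
    have e2 : (n : ℂ) = V.subtype (n : V) := by simp
    have e3 : (n : ℂ) + 1 = V.subtype ((n : V) + 1) := by simp
    have e4 : (1 : ℂ) = V.subtype (1 : V) := by simp
    have e5 : (0 : ℂ) = V.subtype (0 : V) := by simp
    rw [e3] at h3
    rw [e1, e2, e4, e5, vv_bc, vv_bc, vv_bc, vv_bc] at h3
    rw [map_add, map_add]
    exact h3
  rw [h2, mu_smul, hadm p (by omega)] at h1
  have h4 := congrArg φ h1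
  have hpz : ((p : ℕ) : ZMod p) = 0 := CharP.cast_eq_zero _ _
  simp only [map_mul, map_pow, map_natCast] at h4
  push_cast at h4
  rw [hpz, zero_pow (by omega), mul_zero, zero_add, one_pow] at h4
  exact zero_ne_one h4

end Pool.Agent.ShorBoth
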