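import Mathlib

/-!
Linear algebra on `ZMod p` for cyclic two-term recurrences.
-/

set_option autoImplicit false

namespace Pool.Agent.ShorBoth

open Finset

section

variable {p : ℕ} [hp : Fact p.Prime]

/-- Linear independence of the rows at times `t, t + p, …, t + (p - 2) p`. -/
theorem rows_indep (L : ZMod p → (ZMod p → ZMod p) →ₗ[ZMod p] (ZMod p → ZMod p))
    (v : ℕ → ZMod p → ZMod p) (hv : ∀ t, 1 ≤ t → v (t + 1) = L (t : ZMod p) (v t))
    (hs : ∀ t, 1 ≤ t → ∑ x, v t x = (t : ZMod p) ^ t) (t : ℕ) (ht : 1 ≤ t)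
    (x : ℕ → ZMod p) (h : ∑ l ∈ range (p - 1), x l • v (t + l * p) = 0) :
    ∀ l, l < p - 1 → x l = 0 := by
  have h1 : ∀ k, ∑ l ∈ range (p - 1), x l • v (t + k + l * p) = 0 := by
    intro k
    induction k with
    | zero => exact h
    | succ k ih =>
      have h2 : ∀ l ∈ range (p - 1), x l • v (t + (k + 1) + l * p) =
          L ((t + k : ℕ) : ZMod p) (x l • v (t + k + l * p)) := by
        intro l _
        have e : t + (k + 1) + l * p = (t + k + l * p) + 1 := by ring
        rw [e, hv _ (by omega), map_smul]
        congr 3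
        simp
      rw [sum_congr rfl h2, ← map_sum, ih, map_zero]
  have h3 : ∀ a : ZMod p, a ≠ 0 → ∑ l ∈ range (p - 1), x l * a ^ l = 0 := by
    intro a ha
    set k := (a - t).val with hk
    have hcast : ((t + k : ℕ) : ZMod p) = a := by
      rw [hk]
      push_cast
      rw [ZMod.natCast_zmod_val]
      ring
    have h4 := congrArg (fun u : ZMod p → ZMod p => ∑ y, u y) (h1 k)
    simp only [Finset.sum_apply, Pi.smul_apply, smul_eq_mul, Pi.zero_apply, sum_const_zero] at h4
    rw [sum_comm] at h4
    have h5 : ∀ l ∈ range (p - 1), ∑ y, x l * v (t + k + l * p) y =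
        a ^ (t + k) * (x l * a ^ l) := by
      intro l _
      rw [← mul_sum, hs _ (by omega)]
      have e : ((t + k + l * p : ℕ) : ZMod p) = a := by
        rw [← hcast]
        simp
      rw [e, pow_add, mul_comm l p, pow_mul, ZMod.pow_card]
      ring
    rw [sum_congr rfl h5, ← mul_sum] at h4
    rcases mul_eq_zero.mp h4 with h6 | h6
    · exact absurd h6 (pow_ne_zero _ ha)
    · exact h6
  set q : Polynomial (ZMod p) := ∑ l ∈ range (p - 1), Polynomial.monomial l (x l) with hq
  have hcoeff : ∀ l, l < p - 1 → q.coeff l = x l := by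
    intro l hl
    rw [hq, Polynomial.finsetSum_coeff]
    simp only [Polynomial.coeff_monomial]
    rw [sum_ite_eq']
    simp [hl]
  have hq0 : q = 0 := by
    have hcard : (univ.erase (0 : ZMod p)).card = p - 1 := by
      rw [card_erase_of_mem (mem_univ _), card_univ, ZMod.card]
    rcases Nat.eq_zero_or_pos (p - 1) with h0 | h0
    · rw [hq, h0]
      simp
    refine Polynomial.eq_zero_of_natDegree_lt_card_of_eval_eq_zero' q (univ.erase (0 : ZMod p))
      ?_ ?_
    · intro a ha
      have ha' : a ≠ 0 := (mem_erase.mp ha).1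
      have h7 := h3 a ha'
      rw [hq, Polynomial.eval_finsetSum]
      simpa [Polynomial.eval_monomial] using h7
    · rw [hcard]
      have h8 : q.natDegree ≤ p - 2 := by
        rw [hq]
        refine Polynomial.natDegree_sum_le_of_forall_le _ _ fun l hl => ?_
        refine (Polynomial.natDegree_monomial_le _).trans ?_
        have := mem_range.mp hl
        omega
      omega
  intro l hl
  rw [← hcoeff l hl, hq0, Polynomial.coeff_zero]

/-- A kernel vector on which the annihilator of the rows vanishes is zero. -/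
theorem kernel_zero (L : ZMod p → (ZMod p → ZMod p) →ₗ[ZMod p] (ZMod p → ZMod p))
    (v : ℕ → ZMod p → ZMod p) (hv : ∀ t, 1 ≤ t → v (t + 1) = L (t : ZMod p) (v t))
    (hs : ∀ t, 1 ≤ t → ∑ x, v t x = (t : ZMod p) ^ t) (t : ℕ) (ht : 1 ≤ t)
    (ρ : ZMod p → ZMod p) (hρ : ρ ≠ 0)
    (hann : ∀ l, l < p - 1 → ∑ x, ρ x * v (t + l * p) x = 0)
    (κ : ZMod p → ZMod p) (hκ : L (t : ZMod p) κ = 0) (hρκ : ∑ x, ρ x * κ x = 0) : κ = 0 := by
  have hp2 := hp.out.two_le
  set w : Fin (p - 1) → ZMod p → ZMod p := fun l => v (t + l.val * p) with hw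
  have hli : LinearIndependent (ZMod p) w := by
    rw [Fintype.linearIndependent_iff]
    intro g hg l
    have h1 := rows_indep L v hv hs t ht
      (fun l => if h : l < p - 1 then g ⟨l, h⟩ else 0) (by
        rw [sum_range]
        rw [← hg]
        refine sum_congr rfl fun l _ => ?_
        simp [hw])
      l.val l.isLt
    simpa using h1
  set Φ : (ZMod p → ZMod p) →ₗ[ZMod p] ZMod p :=
    { toFun := fun u => ∑ x, ρ x * u x
      map_add' := fun u u' => by
        rw [← sum_add_distrib]
        exact sum_congr rfl fun x _ => by simp only [Pi.add_apply]; ring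
      map_smul' := fun c u => by
        simp only [RingHom.id_apply, smul_eq_mul, Pi.smul_apply]
        rw [mul_sum]
        exact sum_congr rfl fun x _ => by ring } with hΦ
  have hΦ0 : Φ ≠ 0 := by
    intro h0
    apply hρ
    funext y
    have h1 := LinearMap.congr_fun h0 (Pi.single y 1)
    simp only [hΦ, LinearMap.coe_mk, AddHom.coe_mk, LinearMap.zero_apply] at h1
    rw [sum_eq_single y] at h1
    · simpa using h1
    · intro b _ hb
      rw [Pi.single_eq_of_ne hb, mul_zero]
    · intro h2
      exact absurd (mem_univ y) h2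
  have hrange : LinearMap.range Φ = ⊤ := by
    rw [LinearMap.range_eq_top]
    obtain ⟨u, hu⟩ : ∃ u, Φ u ≠ 0 := by
      by_contra hcon
      push Not at hcon
      exact hΦ0 (LinearMap.ext hcon)
    intro c
    refine ⟨(c * (Φ u)⁻¹) • u, ?_⟩
    rw [map_smul, smul_eq_mul, mul_assoc, inv_mul_cancel₀ hu, mul_one]
  have hker : Module.finrank (ZMod p) (LinearMap.ker Φ) = p - 1 := by
    have h1 := LinearMap.finrank_range_add_finrank_ker Φ
    rw [hrange, finrank_top, Module.finrank_self, Module.finrank_pi, ZMod.card] at h1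
    omega
  have hspan : Submodule.span (ZMod p) (Set.range w) = LinearMap.ker Φ := by
    apply Submodule.eq_of_le_of_finrank_eq
    · rw [Submodule.span_le]
      rintro _ ⟨l, rfl⟩
      exact hann l.val l.isLt
    · rw [hker, finrank_span_eq_card hli, Fintype.card_fin]
  have hκmem : κ ∈ Submodule.span (ZMod p) (Set.range w) := by
    rw [hspan]
    exact hρκ
  obtain ⟨c, hc⟩ := (Submodule.mem_span_range_iff_exists_fun (ZMod p)).mp hκmem
  have h1 := rows_indep L v hv hs (t + 1) (by omega)
    (fun l => if h : l < p - 1 then c ⟨l, h⟩ else 0) (by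
      have h2 := hκ
      rw [← hc, map_sum] at h2
      rw [sum_range]
      rw [← h2]
      refine sum_congr rfl fun l _ => ?_
      rw [map_smul]
      have e : v (t + 1 + l.val * p) = L (t : ZMod p) (w l) := by
        have e1 : t + 1 + l.val * p = (t + l.val * p) + 1 := by ring
        rw [e1, hv _ (by omega), hw]
        congr 2
        simp
      rw [e]
      simp)
  rw [← hc]
  refine sum_eq_zero fun l _ => ?_
  have h3 := h1 l.val l.isLt
  simp only [Fin.is_lt, dite_true, Fin.eta] at h3
  rw [h3, zero_smul]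

theorem val_add_nat (x : ZMod p) (j : ℕ) (hj : j < p) : (x + (j : ZMod p) - x).val = j := by
  rw [add_sub_cancel_left, ZMod.val_natCast, Nat.mod_eq_of_lt hj]

/-- Kernel vectors supported on arcs. -/
theorem arc (f g : ZMod p → ZMod p) : ∀ l : ℕ, 1 ≤ l → l ≤ p → ∀ x : ZMod p, f x = 0 →
    g (x + l) = 0 → ∃ κ : ZMod p → ZMod p, κ ≠ 0 ∧ (∀ z, f z * κ z + g z * κ (z - 1) = 0) ∧
      ∀ z, l ≤ (z - x).val → κ z = 0 := by
  have hp2 := hp.out.two_le
  intro l
  induction l using Nat.strong_induction_on with
  | _ l ih =>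
    intro hl hlp x hf hg
    by_cases hex : ∃ j, 1 ≤ j ∧ j < l ∧ f (x + j) = 0
    · obtain ⟨j, hj1, hj2, hj3⟩ := hex
      obtain ⟨κ, h1, h2, h3⟩ := ih (l - j) (by omega) (by omega) (by omega) (x + j) hj3 (by
        rw [add_assoc, ← Nat.cast_add]
        have e : j + (l - j) = l := by omega
        rw [e]
        exact hg)
      refine ⟨κ, h1, h2, fun z hz => ?_⟩
      by_contra hne
      have h4 : (z - (x + j)).val < l - j := by
        by_contra hcon
        exact hne (h3 z (by omega))
      have h5 : z - x = (((z - (x + j)).val + j : ℕ) : ZMod p) := by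
        push_cast
        rw [ZMod.natCast_zmod_val]
        ring
      rw [h5, ZMod.val_natCast] at hz
      have h6 := Nat.mod_le ((z - (x + j)).val + j) p
      omega
    · push Not at hex
      set c : ℕ → ZMod p := fun j =>
        Nat.rec 1 (fun j c => -(g (x + (j + 1 : ℕ)) * c) * (f (x + (j + 1 : ℕ)))⁻¹) j with hc
      have hc0 : c 0 = 1 := rfl
      have hcs : ∀ j, c (j + 1) = -(g (x + (j + 1 : ℕ)) * c j) * (f (x + (j + 1 : ℕ)))⁻¹ :=
        fun j => rfl
      refine ⟨fun z => if (z - x).val < l then c (z - x).val else 0, ?_, ?_, ?_⟩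
      · intro h0
        have h1 := congrFun h0 x
        simp only [sub_self, ZMod.val_zero, Pi.zero_apply] at h1
        rw [if_pos (by omega), hc0] at h1
        exact one_ne_zero h1
      · intro z
        show f z * (if (z - x).val < l then c (z - x).val else 0) +
          g z * (if (z - 1 - x).val < l then c (z - 1 - x).val else 0) = 0
        obtain ⟨j, hj, hjz⟩ : ∃ j : ℕ, j < p ∧ z = x + j := by
          refine ⟨(z - x).val, ZMod.val_lt _, ?_⟩
          rw [ZMod.natCast_zmod_val]
          ring
        have e1 : (z - x).val = j := by rw [hjz]; exact val_add_nat x j hj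
        rcases Nat.eq_zero_or_pos j with h0 | h0
        · subst h0
          have hzx : z = x := by rw [hjz]; simp
          rw [e1]
          have e2 : (z - 1 - x).val = p - 1 := by
            rw [hzx, show x - 1 - x = (-1 : ZMod p) by ring]
            have : ((p - 1 : ℕ) : ZMod p) = -1 := by
              rw [Nat.cast_sub (by omega)]
              simp
            rw [← this, ZMod.val_natCast, Nat.mod_eq_of_lt (by omega)]
          rw [e2]
          rw [hzx, hf, zero_mul, zero_add]
          by_cases hlp' : p - 1 < l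
          · have : l = p := by omega
            rw [this] at hg
            simp only [CharP.cast_eq_zero, add_zero] at hg
            rw [hg, zero_mul]
          · rw [if_neg hlp', mul_zero]
        · obtain ⟨i, rfl⟩ : ∃ i, j = i + 1 := ⟨j - 1, by omega⟩
          have e2 : (z - 1 - x).val = i := by
            have : z - 1 = x + (i : ZMod p) := by
              rw [hjz]
              push_cast
              ring
            rw [this]
            exact val_add_nat x i (by omega)
          rw [e1, e2]
          by_cases h1 : i + 1 < l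
          · rw [if_pos h1, if_pos (by omega), hcs, ← hjz]
            have hne : f z ≠ 0 := by
              rw [hjz]
              exact hex (i + 1) (by omega) h1
            field_simp
            ring
          · rw [if_neg h1]
            by_cases h2 : i < l
            · have : i + 1 = l := by omega
              have hgz : g z = 0 := by
                rw [hjz, this]
                exact hg
              rw [hgz]
              ring
            · rw [if_neg h2]
              ring
      · intro z hz
        have hz' : ¬ (z - x).val < l := by omega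
        simp only [if_neg hz']

/-- The structure of the roots of the two coefficient functions at a simple zero. -/
theorem root_structure (f g f' g' ρ : ZMod p → ZMod p)
    (hρ : ∀ x, f x * ρ x + g (x + 1) * ρ (x + 1) = 0)
    (hΦ : ∀ κ : ZMod p → ZMod p, (∀ z, f z * κ z + g z * κ (z - 1) = 0) →
      ∑ x, ρ x * (f' x * κ x + g' x * κ (x - 1)) = 0 → κ = 0)
    (hf : ∃ x, f x = 0) (hg : ∃ x, g x = 0) :
    ∃ n₀, (f n₀ = 0 ∧ f' n₀ ≠ 0 ∧ ∀ x, f x = 0 → x = n₀) ∨
      (g n₀ = 0 ∧ g' n₀ ≠ 0 ∧ ∀ x, g x = 0 → x = n₀) := by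
  have hp2 := hp.out.two_le
  set Φ : (ZMod p → ZMod p) → ZMod p :=
    fun κ => ∑ x, ρ x * (f' x * κ x + g' x * κ (x - 1)) with hΦdef
  -- two kernel vectors are proportional
  have hprop : ∀ κ κ' : ZMod p → ZMod p, (∀ z, f z * κ z + g z * κ (z - 1) = 0) →
      (∀ z, f z * κ' z + g z * κ' (z - 1) = 0) → κ' ≠ 0 → ∀ y, κ' y = 0 → κ y = 0 := by
    intro κ κ' h1 h2 h3 y hy
    have h4 : (fun z => Φ κ * κ' z - Φ κ' * κ z) = 0 := by
      apply hΦ
      · intro z
        linear_combination Φ κ * h2 z - Φ κ' * h1 z
      · have e : ∑ x, ρ x * (f' x * (Φ κ * κ' x - Φ κ' * κ x) +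
            g' x * (Φ κ * κ' (x - 1) - Φ κ' * κ (x - 1))) =
            Φ κ * Φ κ' - Φ κ' * Φ κ := by
          conv_rhs => rw [hΦdef]
          simp only
          rw [mul_sum, mul_sum, ← sum_sub_distrib]
          exact sum_congr rfl fun x _ => by ring
        rw [e]
        ring
    have h5 := congrFun h4 y
    simp only [hy, mul_zero, zero_sub, Pi.zero_apply, neg_eq_zero] at h5
    rcases mul_eq_zero.mp h5 with h6 | h6
    · exact absurd (hΦ κ' h2 h6) h3
    · exact h6
  obtain ⟨x₀, hx₀⟩ := hf
  obtain ⟨y₀, hy₀⟩ := hg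
  -- a kernel vector
  obtain ⟨κ, hκ0, hκ⟩ : ∃ κ : ZMod p → ZMod p, κ ≠ 0 ∧
      ∀ z, f z * κ z + g z * κ (z - 1) = 0 := by
    rcases Nat.eq_zero_or_pos (y₀ - x₀).val with h0 | h0
    · have hxy : y₀ - x₀ = 0 := (ZMod.val_eq_zero _).mp h0
      have hxy' : y₀ = x₀ := sub_eq_zero.mp hxy
      obtain ⟨κ, h1, h2, -⟩ := arc f g p (by omega) le_rfl x₀ hx₀ (by
        simp only [CharP.cast_eq_zero, add_zero]
        rw [← hxy']
        exact hy₀)
      exact ⟨κ, h1, h2⟩
    · obtain ⟨κ, h1, h2, -⟩ := arc f g (y₀ - x₀).val h0 (ZMod.val_lt _).le x₀ hx₀ (by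
        rw [ZMod.natCast_zmod_val, add_sub_cancel]
        exact hy₀)
      exact ⟨κ, h1, h2⟩
  -- `f ρ κ` is constant
  have hconst : ∀ x, f x * ρ x * κ x = f (x - 1) * ρ (x - 1) * κ (x - 1) := by
    intro x
    have h1 := hρ (x - 1)
    rw [sub_add_cancel] at h1
    have h2 := hκ x
    linear_combination ρ x * h2 - κ (x - 1) * h1
  have hzero : ∀ x, f x * ρ x * κ x = 0 := by
    have h1 : ∀ k : ℕ, f (x₀ + k) * ρ (x₀ + k) * κ (x₀ + k) = 0 := by
      intro k
      induction k with
      | zero => simp [hx₀]
      | succ k ih =>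
        rw [hconst]
        have e : x₀ + ((k + 1 : ℕ) : ZMod p) - 1 = x₀ + k := by
          push_cast
          ring
        rw [e]
        exact ih
    intro x
    have h2 := h1 (x - x₀).val
    rw [ZMod.natCast_zmod_val, add_sub_cancel] at h2
    exact h2
  have hzero' : ∀ x, g x * ρ x * κ (x - 1) = 0 := by
    intro x
    have h1 := hzero x
    have h2 := hκ x
    linear_combination ρ x * h2 - h1
  have hΦκ : Φ κ ≠ 0 := fun h0 => hκ0 (hΦ κ hκ h0)
  obtain ⟨n₀, -, hn₀⟩ := exists_ne_zero_of_sum_ne_zero hΦκ
  have hρn : ρ n₀ ≠ 0 := left_ne_zero_of_mul hn₀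
  have hsum : f' n₀ * κ n₀ + g' n₀ * κ (n₀ - 1) ≠ 0 := right_ne_zero_of_mul hn₀
  refine ⟨n₀, ?_⟩
  by_cases hcase : f' n₀ * κ n₀ = 0
  · -- type 2
    right
    rw [hcase, zero_add] at hsum
    have hg' : g' n₀ ≠ 0 := left_ne_zero_of_mul hsum
    have hκn : κ (n₀ - 1) ≠ 0 := right_ne_zero_of_mul hsum
    refine ⟨?_, hg', ?_⟩
    · rcases mul_eq_zero.mp (hzero' n₀) with h | h
      · rcases mul_eq_zero.mp h with h | h
        · exact h
        · exact absurd h hρn
      · exact absurd h hκn
    · intro n₁ hn₁
      by_contra hne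
      set d := (n₁ - n₀).val with hd
      have hd0 : 1 ≤ d := by
        rcases Nat.eq_zero_or_pos d with h0 | h0
        · exact absurd (sub_eq_zero.mp ((ZMod.val_eq_zero _).mp h0)) hne
        · exact h0
      have hdp : d < p := ZMod.val_lt _
      have hdc : (d : ZMod p) = n₁ - n₀ := ZMod.natCast_zmod_val _
      obtain ⟨j, hj1, hj2, hj3⟩ : ∃ j : ℕ, 1 ≤ j ∧ j ≤ d ∧ f (n₁ - j) = 0 := by
        by_contra hcon
        push Not at hcon
        have h1 : ∀ j : ℕ, 1 ≤ j → j ≤ d → ρ (n₁ - j) = 0 := by
          intro j hj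
          induction j, hj using Nat.le_induction with
          | base =>
            intro hjd
            have h2 := hρ (n₁ - (1 : ℕ))
            have e : n₁ - ((1 : ℕ) : ZMod p) + 1 = n₁ := by push_cast; ring
            rw [e, hn₁, zero_mul, add_zero] at h2
            rcases mul_eq_zero.mp h2 with h | h
            · exact absurd h (hcon 1 le_rfl hjd)
            · exact h
          | succ j hj ih =>
            intro hjd
            have h2 := hρ (n₁ - ((j + 1 : ℕ) : ZMod p))
            have e : n₁ - ((j + 1 : ℕ) : ZMod p) + 1 = n₁ - j := by push_cast; ring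
            rw [e, ih (by omega), mul_zero, add_zero] at h2
            rcases mul_eq_zero.mp h2 with h | h
            · exact absurd h (hcon (j + 1) (by omega) hjd)
            · exact h
        have h2 := h1 d hd0 le_rfl
        rw [hdc] at h2
        have e : n₁ - (n₁ - n₀) = n₀ := by ring
        rw [e] at h2
        exact hρn h2
      obtain ⟨κ', h1, h2, h3⟩ := arc f g j hj1 (by omega) (n₁ - j) hj3 (by
        rw [sub_add_cancel]
        exact hn₁)
      refine hκn (hprop κ κ' hκ h2 h1 (n₀ - 1) (h3 _ ?_))
      have e : n₀ - 1 - (n₁ - (j : ZMod p)) = ((p - 1 - (d - j) : ℕ) : ZMod p) := by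
        rw [Nat.cast_sub (by omega), Nat.cast_sub (by omega), Nat.cast_sub (by omega), hdc]
        simp
        ring
      rw [e, ZMod.val_natCast, Nat.mod_eq_of_lt (by omega)]
      omega
  · -- type 1
    left
    have hf' : f' n₀ ≠ 0 := left_ne_zero_of_mul hcase
    have hκn : κ n₀ ≠ 0 := right_ne_zero_of_mul hcase
    refine ⟨?_, hf', ?_⟩
    · rcases mul_eq_zero.mp (hzero n₀) with h | h
      · rcases mul_eq_zero.mp h with h | h
        · exact h
        · exact absurd h hρn
      · exact absurd h hκn
    · intro n₁ hn₁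
      by_contra hne
      set d := (n₀ - n₁).val with hd
      have hd0 : 1 ≤ d := by
        rcases Nat.eq_zero_or_pos d with h0 | h0
        · exact absurd (sub_eq_zero.mp ((ZMod.val_eq_zero _).mp h0)).symm hne
        · exact h0
      have hdp : d < p := ZMod.val_lt _
      have hdc : (d : ZMod p) = n₀ - n₁ := ZMod.natCast_zmod_val _
      obtain ⟨j, hj1, hj2, hj3⟩ : ∃ j : ℕ, 1 ≤ j ∧ j ≤ d ∧ g (n₁ + j) = 0 := by
        by_contra hcon
        push Not at hcon
        have h1 : ∀ j : ℕ, 1 ≤ j → j ≤ d → ρ (n₁ + j) = 0 := by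
          intro j hj
          induction j, hj using Nat.le_induction with
          | base =>
            intro hjd
            have h2 := hρ n₁
            rw [hn₁, zero_mul, zero_add] at h2
            have h3 := hcon 1 le_rfl hjd
            simp only [Nat.cast_one] at h3 ⊢
            rcases mul_eq_zero.mp h2 with h | h
            · exact absurd h h3
            · exact h
          | succ j hj ih =>
            intro hjd
            have h2 := hρ (n₁ + j)
            rw [ih (by omega), mul_zero, zero_add] at h2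
            have e : n₁ + (j : ZMod p) + 1 = n₁ + ((j + 1 : ℕ) : ZMod p) := by push_cast; ring
            rw [e] at h2
            rcases mul_eq_zero.mp h2 with h | h
            · exact absurd h (hcon (j + 1) (by omega) hjd)
            · exact h
        have h2 := h1 d hd0 le_rfl
        rw [hdc, add_sub_cancel] at h2
        exact hρn h2
      obtain ⟨κ', h1, h2, h3⟩ := arc f g j hj1 (by omega) n₁ hn₁ hj3
      exact hκn (hprop κ κ' hκ h2 h1 n₀ (h3 _ (by omega)))

end

end Pool.Agent.ShorBoth
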