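import Pool.Agent.ShorBoth.Rec
import Pool.Agent.ShorBoth.ModP

/-!
The factor `(m + k) ^ E k` of the iterates of the adjoint, and the reduction modulo a prime.
-/

set_option autoImplicit false

namespace Pool.Agent.ShorBoth

open Polynomial Finset

section dom

variable {R : Type*} [CommRing R] [IsDomain R] (P Q : R[X][X])

/-- The exponent of `m + k` in the `k`-th iterate. -/
noncomputable def E (k : ℕ) : ℕ := (T P Q k).rootMultiplicity (C (-(k : R)))

/-- The cofactor. -/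
noncomputable def F (k : ℕ) : R[X][X] := T P Q k /ₘ (X - C (C (-(k : R)))) ^ E P Q k

theorem T_eq (k : ℕ) : (X - C (C (-(k : R)))) ^ E P Q k * F P Q k = T P Q k :=
  pow_mul_divByMonic_rootMultiplicity_eq _ _

theorem ms_mul {R : Type*} [CommRing R] (A B : R[X][X]) : ms (A * B) = ms A * ms B := by
  simp [ms]

theorem ms_pow {R : Type*} [CommRing R] (A : R[X][X]) (k : ℕ) : ms (A ^ k) = ms A ^ k := by
  simp [ms]

theorem ns_mul {R : Type*} [CommRing R] (A B : R[X][X]) : ns (A * B) = ns A * ns B := by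
  simp [ns]

theorem ns_pow {R : Type*} [CommRing R] (A : R[X][X]) (k : ℕ) : ns (A ^ k) = ns A ^ k := by
  simp [ns]

theorem ms_lin {R : Type*} [CommRing R] (k : ℕ) :
    ms (X - C (C (-(k : R)))) = X - C (C (-((k + 1 : ℕ) : R))) := by
  simp only [ms, sub_comp, X_comp, C_comp]
  push_cast
  simp only [map_neg, map_add, map_natCast, map_one]
  ring

theorem ns_lin {R : Type*} [CommRing R] (k : ℕ) :
    ns (X - C (C (-(k : R)))) = X - C (C (-(k : R))) := by
  simp only [ns, Polynomial.map_sub, map_X, map_C]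
  simp

theorem Lop_lin {R : Type*} [CommRing R] (P Q G : R[X][X]) (k e : ℕ) :
    Lop P Q ((X - C (C (-(k : R)))) ^ e * G) =
      (X - C (C (-((k + 1 : ℕ) : R)))) ^ e * Lop P Q G := by
  unfold Lop
  rw [ms_mul, ms_pow, ms_lin, ← mul_assoc, ← mul_assoc, mul_comm P, mul_comm Q, mul_assoc,
    mul_assoc, ns_mul, ns_pow, ns_lin, mul_add]

variable {P Q}

theorem T_ne_zero [CharZero R] (h : Adm P Q) (k : ℕ) : T P Q k ≠ 0 := by
  intro h0
  have h1 := T_one_one h k
  rw [h0] at h1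
  have h2 : ((k : R) + 1) ^ (k + 1) ≠ 0 := pow_ne_zero _ (by exact_mod_cast Nat.succ_ne_zero k)
  apply h2
  rw [← h1]
  simp [vv]

theorem rho_ne_zero [CharZero R] (h : Adm P Q) (k : ℕ) :
    (F P Q k).eval (C (-(k : R))) ≠ 0 :=
  eval_divByMonic_pow_rootMultiplicity_ne_zero _ (T_ne_zero h k)

theorem step [CharZero R] (h : Adm P Q) (k : ℕ) : ∃ e, E P Q (k + 1) = E P Q k + e ∧
    (X - C (C (-((k + 1 : ℕ) : R)))) ^ e * F P Q (k + 1) = Lop P Q (F P Q k) := by
  have h1 : T P Q (k + 1) = (X - C (C (-((k + 1 : ℕ) : R)))) ^ E P Q k * Lop P Q (F P Q k) := by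
    rw [T, ← T_eq P Q k, Lop_lin]
  have h2 : E P Q k ≤ E P Q (k + 1) := by
    unfold E
    rw [le_rootMultiplicity_iff (T_ne_zero h (k + 1))]
    rw [h1]
    exact Dvd.intro _ rfl
  obtain ⟨e, he⟩ := Nat.exists_eq_add_of_le h2
  refine ⟨e, he, ?_⟩
  have h3 := T_eq P Q (k + 1)
  rw [h1, he, pow_add, mul_assoc] at h3
  exact mul_left_cancel₀ (pow_ne_zero _ (X_sub_C_ne_zero _)) h3

theorem Lop_derivative {R : Type*} [CommRing R] (P Q G : R[X][X]) :
    derivative (Lop P Q G) = Lop (derivative P) (derivative Q) G + Lop P Q (derivative G) := by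
  have h1 : ∀ H : R[X][X], derivative (ms H) = ms (derivative H) := by
    intro H
    simp [ms, derivative_comp]
  have h2 : ∀ H : R[X][X], derivative (ns H) = ns (derivative H) := by
    intro H
    simp [ns, derivative_map]
  unfold Lop
  rw [derivative_add, derivative_mul, h1, h2, derivative_mul, h1]
  simp only [ns, Polynomial.map_add]
  ring

theorem E_map {R' : Type*} [CommRing R'] [IsDomain R'] (φ : R →+* R')
    (hφ : Function.Injective φ) (k : ℕ) : E (bc φ P) (bc φ Q) k = E P Q k := by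
  unfold E
  rw [← bc_T]
  unfold bc
  rw [eq_rootMultiplicity_map (f := mapRingHom φ)
    (by simpa using Polynomial.map_injective φ hφ) (C (-(k : R)))]
  simp

theorem F_map {R' : Type*} [CommRing R'] [IsDomain R'] (φ : R →+* R')
    (hφ : Function.Injective φ) (k : ℕ) : bc φ (F P Q k) = F (bc φ P) (bc φ Q) k := by
  unfold F
  rw [E_map φ hφ, ← bc_T]
  unfold bc
  rw [map_divByMonic _ ((monic_X_sub_C _).pow _)]
  simp

/-- The annihilator of the rows at times `t` with `t + i` divisible. -/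
theorem mu_F [CharZero R] (h : Adm P Q) (i t : ℕ) (ht : 1 ≤ t) (hE : E P Q i ≤ t + i) :
    mu P Q t (fun n => vv (F P Q i) (t : R) (n : R)) = ((t : R) + i) ^ (t + i - E P Q i) := by
  have h1 := mu_T h i t ht
  have h2 : mu P Q t (fun n => vv (T P Q i) (t : R) (n : R)) =
      ((t : R) + i) ^ E P Q i * mu P Q t (fun n => vv (F P Q i) (t : R) (n : R)) := by
    rw [← mu_smul]
    refine mu_congr fun n => ?_
    rw [← T_eq P Q i, vv_mul, vv_pow]
    congr 2
    simp [vv]
  rw [h2] at h1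
  have h3 : ((t : R) + i) ^ (t + i) = ((t : R) + i) ^ E P Q i *
      ((t : R) + i) ^ (t + i - E P Q i) := by
    rw [← pow_add]
    congr 1
    omega
  rw [h3] at h1
  refine mul_left_cancel₀ (pow_ne_zero _ ?_) h1
  have : ((t + i : ℕ) : R) ≠ 0 := Nat.cast_ne_zero.mpr (by omega)
  push_cast at this
  exact this

end dom

section fold

variable {p : ℕ} [hp : Fact p.Prime] (P Q : (ZMod p)[X][X])

/-- The folded row. -/
noncomputable def fold (t : ℕ) (x : ZMod p) : ZMod p :=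
  mu P Q t (fun n => if (n : ZMod p) = x then 1 else 0)

/-- The recurrence on functions on `ZMod p`. -/
noncomputable def Lm (m : ZMod p) : (ZMod p → ZMod p) →ₗ[ZMod p] (ZMod p → ZMod p) where
  toFun u := fun x => vv P m x * u x + vv Q m x * u (x - 1)
  map_add' u u' := by
    funext x
    simp only [Pi.add_apply]
    ring
  map_smul' c u := by
    funext x
    simp only [Pi.smul_apply, smul_eq_mul, RingHom.id_apply]
    ring

theorem pair_fold (t : ℕ) (G : ZMod p → ZMod p) :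
    ∑ x, G x * fold P Q t x = mu P Q t (fun n => G n) := by
  unfold fold mu
  have h1 : ∀ x ∈ (univ : Finset (ZMod p)),
      G x * ∑ n ∈ range (t + 1), (if (n : ZMod p) = x then 1 else 0) * S P Q t n =
      ∑ n ∈ range (t + 1), if (n : ZMod p) = x then G x * S P Q t n else 0 := by
    intro x _
    rw [mul_sum]
    refine sum_congr rfl fun n _ => ?_
    split_ifs <;> ring
  rw [sum_congr rfl h1, sum_comm]
  refine sum_congr rfl fun n _ => ?_
  rw [sum_ite_eq]
  simp

theorem fold_step (t : ℕ) (ht : 1 ≤ t) :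
    fold P Q (t + 1) = Lm P Q (t : ZMod p) (fold P Q t) := by
  funext x
  show fold P Q (t + 1) x = vv P (t : ZMod p) x * fold P Q t x +
    vv Q (t : ZMod p) x * fold P Q t (x - 1)
  unfold fold
  rw [mu_step P Q t ht, ← mu_smul, ← mu_smul]
  unfold mu
  rw [← sum_add_distrib]
  refine sum_congr rfl fun n _ => ?_
  have h1 : (((n + 1 : ℕ) : ZMod p) = x) ↔ ((n : ZMod p) = x - 1) := by
    push_cast
    constructor
    · intro h
      rw [← h]
      ring
    · intro h
      rw [h]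
      ring
  show (vv P (t : ZMod p) (n : ZMod p) * (if (n : ZMod p) = x then 1 else 0) +
      vv Q (t : ZMod p) ((n : ZMod p) + 1) * (if ((n + 1 : ℕ) : ZMod p) = x then 1 else 0)) *
        S P Q t n =
    (vv P (t : ZMod p) x * (if (n : ZMod p) = x then 1 else 0)) * S P Q t n +
      (vv Q (t : ZMod p) x * (if (n : ZMod p) = x - 1 then 1 else 0)) * S P Q t n
  by_cases ha : (n : ZMod p) = x
  · by_cases hb : (n : ZMod p) = x - 1
    · have h2 : (1 : ZMod p) = 0 := by
        rw [ha] at hb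
        linear_combination hb
      exact absurd h2 one_ne_zero
    · rw [if_pos ha, if_neg (fun h => hb (h1.mp h)), if_neg hb, ha]
      ring
  · by_cases hb : (n : ZMod p) = x - 1
    · rw [if_neg ha, if_pos (h1.mpr hb), if_pos hb]
      have : (n : ZMod p) + 1 = x := by rw [hb]; ring
      rw [this]
      ring
    · rw [if_neg ha, if_neg (fun h => hb (h1.mp h)), if_neg hb]
      ring

theorem sum_fold (h : Adm P Q) (t : ℕ) (ht : 1 ≤ t) : ∑ x, fold P Q t x = (t : ZMod p) ^ t := by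
  rw [← h t ht]
  have h1 := pair_fold P Q t (fun _ => 1)
  simpa using h1

end fold

section red

variable {p : ℕ} [hp : Fact p.Prime] {V : Type*} [CommRing V] [IsDomain V] [CharZero V]
  {P Q : V[X][X]} (φ : V →+* ZMod p)

/-- The reduction of the annihilator. -/
noncomputable def rb (P Q : V[X][X]) (i : ℕ) (x : ZMod p) : ZMod p :=
  vv (bc φ (F P Q i)) (-(i : ZMod p)) x

theorem star (h : Adm P Q) (i : ℕ) (hE : E P Q i < p) (hρ : rb φ P Q i ≠ 0)
    (κ : ZMod p → ZMod p) (hκ : ∀ z, vv (bc φ P) (-(i : ZMod p)) z * κ z +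
      vv (bc φ Q) (-(i : ZMod p)) z * κ (z - 1) = 0)
    (hs : ∑ x, rb φ P Q i x * κ x = 0) : κ = 0 := by
  have hp2 := hp.out.two_le
  have hi : i < p * (i + 1) := by nlinarith
  set t := p * (i + 1) - i with ht
  have ht1 : 1 ≤ t := by omega
  have hti : ∀ l, t + l * p + i = p * (i + 1 + l) := by
    intro l
    have : p * (i + 1 + l) = p * (i + 1) + l * p := by ring
    omega
  have hcast : ∀ l, ((t + l * p : ℕ) : ZMod p) = -(i : ZMod p) := by
    intro l
    have h1 : ((t + l * p + i : ℕ) : ZMod p) = 0 := by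
      rw [hti, Nat.cast_mul, CharP.cast_eq_zero, zero_mul]
    push_cast at h1 ⊢
    linear_combination h1
  have ht0 : (t : ZMod p) = -(i : ZMod p) := by
    have := hcast 0
    simpa using this
  have hadm := adm_map φ h
  refine kernel_zero (Lm (bc φ P) (bc φ Q)) (fold (bc φ P) (bc φ Q))
    (fun t ht => fold_step _ _ t ht) (fun t ht => sum_fold _ _ hadm t ht) t ht1
    (rb φ P Q i) hρ ?_ κ ?_ hs
  · intro l _
    rw [pair_fold]
    have h1 : E P Q i ≤ t + l * p + i := by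
      rw [hti]
      have : p * 1 ≤ p * (i + 1 + l) := Nat.mul_le_mul_left _ (by omega)
      omega
    have h2 := congrArg φ (mu_F h i (t + l * p) (by omega) h1)
    rw [map_mu, map_pow, map_add, map_natCast, map_natCast, hcast, neg_add_cancel,
      zero_pow] at h2
    · rw [← h2]
      refine mu_congr fun n => ?_
      rw [← vv_bc, map_natCast, map_natCast, hcast]
      rfl
    · have : p * 1 ≤ p * (i + 1 + l) := Nat.mul_le_mul_left _ (by omega)
      rw [hti]
      omega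
  · funext z
    rw [ht0]
    exact hκ z

theorem sum_shift (G κ : ZMod p → ZMod p) :
    ∑ x, G (x + 1) * κ x = ∑ x, G x * κ (x - 1) := by
  refine Fintype.sum_equiv (Equiv.addRight (1 : ZMod p)) _ _ fun x => ?_
  simp

theorem rb_step (h : Adm P Q) (k : ℕ) (he : E P Q (k + 1) = E P Q k) (x : ZMod p) :
    rb φ P Q (k + 1) x = vv (bc φ P) (-((k + 1 : ℕ) : ZMod p)) x * rb φ P Q k x +
      vv (bc φ Q) (-((k + 1 : ℕ) : ZMod p)) (x + 1) * rb φ P Q k (x + 1) := by
  obtain ⟨e, h1, h2⟩ := step h k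
  have he0 : e = 0 := by omega
  rw [he0, pow_zero, one_mul] at h2
  unfold rb
  rw [h2, bc_Lop, vv_Lop]
  have e1 : -((k + 1 : ℕ) : ZMod p) + 1 = -(k : ZMod p) := by push_cast; ring
  rw [e1]

theorem rb_zero (h : Adm P Q) (k : ℕ) (he : E P Q (k + 1) ≠ E P Q k) (x : ZMod p) :
    vv (bc φ P) (-((k + 1 : ℕ) : ZMod p)) x * rb φ P Q k x +
      vv (bc φ Q) (-((k + 1 : ℕ) : ZMod p)) (x + 1) * rb φ P Q k (x + 1) = 0 := by
  obtain ⟨e, h1, h2⟩ := step h k
  obtain ⟨e', rfl⟩ : ∃ e', e = e' + 1 := ⟨e - 1, by omega⟩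
  have h3 := congrArg (fun G => vv (bc φ G) (-((k + 1 : ℕ) : ZMod p)) x) h2
  simp only [bc_Lop, vv_Lop, bc_mul, vv_mul] at h3
  have e1 : -((k + 1 : ℕ) : ZMod p) + 1 = -(k : ZMod p) := by push_cast; ring
  rw [e1] at h3
  unfold rb
  rw [← h3]
  have e2 : vv (bc φ ((X - C (C (-((k + 1 : ℕ) : V)))) ^ (e' + 1)))
      (-((k + 1 : ℕ) : ZMod p)) x = 0 := by
    simp [bc, vv]
  rw [e2, zero_mul]

theorem rb_derivative (h : Adm P Q) (k : ℕ) (he : E P Q (k + 1) = E P Q k + 1) (x : ZMod p) :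
    rb φ P Q (k + 1) x =
      (vv (bc φ (derivative P)) (-((k + 1 : ℕ) : ZMod p)) x * rb φ P Q k x +
        vv (bc φ (derivative Q)) (-((k + 1 : ℕ) : ZMod p)) (x + 1) * rb φ P Q k (x + 1)) +
      (vv (bc φ P) (-((k + 1 : ℕ) : ZMod p)) x *
          vv (bc φ (derivative (F P Q k))) (-(k : ZMod p)) x +
        vv (bc φ Q) (-((k + 1 : ℕ) : ZMod p)) (x + 1) *
          vv (bc φ (derivative (F P Q k))) (-(k : ZMod p)) (x + 1)) := by
  obtain ⟨e, h1, h2⟩ := step h k
  have he0 : e = 1 := by omega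
  rw [he0, pow_one] at h2
  have h3 := congrArg (fun G => vv (bc φ (derivative G)) (-((k + 1 : ℕ) : ZMod p)) x) h2
  simp only [Lop_derivative, derivative_mul, bc_Lop, vv_Lop, bc_add, vv_add, bc_mul,
    vv_mul] at h3
  have e1 : -((k + 1 : ℕ) : ZMod p) + 1 = -(k : ZMod p) := by push_cast; ring
  rw [e1] at h3
  unfold rb
  rw [← h3]
  have e2 : vv (bc φ (X - C (C (-((k + 1 : ℕ) : V))))) (-((k + 1 : ℕ) : ZMod p)) x = 0 := by
    simp [bc, vv]
  have e3 : vv (bc φ (derivative (X - C (C (-((k + 1 : ℕ) : V))))))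
      (-((k + 1 : ℕ) : ZMod p)) x = 1 := by
    simp [bc, vv]
  rw [e2, e3, zero_mul, add_zero, one_mul]

/-- The modular step. -/
theorem modular (h : Adm P Q) (k : ℕ) (hE : E P Q (k + 1) < p) (hρ : rb φ P Q (k + 1) ≠ 0)
    (hf : ∃ x, vv (bc φ P) (-((k + 1 : ℕ) : ZMod p)) x = 0)
    (hg : ∃ x, vv (bc φ Q) (-((k + 1 : ℕ) : ZMod p)) x = 0) :
    E P Q (k + 1) ≠ E P Q k ∧ (E P Q (k + 1) = E P Q k + 1 → ∃ n₀,
      (vv (bc φ P) (-((k + 1 : ℕ) : ZMod p)) n₀ = 0 ∧
        vv (bc φ (derivative P)) (-((k + 1 : ℕ) : ZMod p)) n₀ ≠ 0 ∧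
        ∀ x, vv (bc φ P) (-((k + 1 : ℕ) : ZMod p)) x = 0 → x = n₀) ∨
      (vv (bc φ Q) (-((k + 1 : ℕ) : ZMod p)) n₀ = 0 ∧
        vv (bc φ (derivative Q)) (-((k + 1 : ℕ) : ZMod p)) n₀ ≠ 0 ∧
        ∀ x, vv (bc φ Q) (-((k + 1 : ℕ) : ZMod p)) x = 0 → x = n₀)) := by
  have hker : ∀ (G κ : ZMod p → ZMod p), (∀ z, vv (bc φ P) (-((k + 1 : ℕ) : ZMod p)) z * κ z +
      vv (bc φ Q) (-((k + 1 : ℕ) : ZMod p)) z * κ (z - 1) = 0) →
      ∑ x, (vv (bc φ P) (-((k + 1 : ℕ) : ZMod p)) x * G x +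
        vv (bc φ Q) (-((k + 1 : ℕ) : ZMod p)) (x + 1) * G (x + 1)) * κ x = 0 := by
    intro G κ hκ
    have h1 : ∑ x, (vv (bc φ P) (-((k + 1 : ℕ) : ZMod p)) x * G x +
        vv (bc φ Q) (-((k + 1 : ℕ) : ZMod p)) (x + 1) * G (x + 1)) * κ x =
        ∑ x, (vv (bc φ P) (-((k + 1 : ℕ) : ZMod p)) x * G x) * κ x +
        ∑ x, (vv (bc φ Q) (-((k + 1 : ℕ) : ZMod p)) x * G x) * κ (x - 1) := by
      rw [← sum_shift, ← sum_add_distrib]
      exact sum_congr rfl fun x _ => by ring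
    rw [h1, ← sum_add_distrib]
    refine sum_eq_zero fun x _ => ?_
    linear_combination G x * hκ x
  constructor
  · intro he
    obtain ⟨x₀, hx₀⟩ := hf
    obtain ⟨y₀, hy₀⟩ := hg
    obtain ⟨κ, hκ0, hκ⟩ : ∃ κ : ZMod p → ZMod p, κ ≠ 0 ∧
        ∀ z, vv (bc φ P) (-((k + 1 : ℕ) : ZMod p)) z * κ z +
          vv (bc φ Q) (-((k + 1 : ℕ) : ZMod p)) z * κ (z - 1) = 0 := by
      have hp2 := hp.out.two_le
      rcases Nat.eq_zero_or_pos (y₀ - x₀).val with h0 | h0
      · have hxy : y₀ - x₀ = 0 := (ZMod.val_eq_zero _).mp h0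
        have hxy' : y₀ = x₀ := sub_eq_zero.mp hxy
        obtain ⟨κ, h1, h2, -⟩ := arc (fun z => vv (bc φ P) (-((k + 1 : ℕ) : ZMod p)) z)
          (fun z => vv (bc φ Q) (-((k + 1 : ℕ) : ZMod p)) z) p (by omega) le_rfl x₀ hx₀ (by
          simp only [CharP.cast_eq_zero, add_zero]
          rw [← hxy']
          exact hy₀)
        exact ⟨κ, h1, h2⟩
      · obtain ⟨κ, h1, h2, -⟩ := arc (fun z => vv (bc φ P) (-((k + 1 : ℕ) : ZMod p)) z)
          (fun z => vv (bc φ Q) (-((k + 1 : ℕ) : ZMod p)) z) (y₀ - x₀).val h0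
          (ZMod.val_lt _).le x₀ hx₀ (by
          rw [ZMod.natCast_zmod_val, add_sub_cancel]
          exact hy₀)
        exact ⟨κ, h1, h2⟩
    refine hκ0 (star φ h (k + 1) hE hρ κ hκ ?_)
    rw [← hker (rb φ P Q k) κ hκ]
    exact sum_congr rfl fun x _ => by rw [rb_step φ h k he]
  · intro he
    refine root_structure (fun z => vv (bc φ P) (-((k + 1 : ℕ) : ZMod p)) z)
      (fun z => vv (bc φ Q) (-((k + 1 : ℕ) : ZMod p)) z)
      (fun z => vv (bc φ (derivative P)) (-((k + 1 : ℕ) : ZMod p)) z)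
      (fun z => vv (bc φ (derivative Q)) (-((k + 1 : ℕ) : ZMod p)) z) (rb φ P Q k)
      (fun x => rb_zero φ h k (by omega) x) ?_ hf hg
    intro κ hκ hs
    refine star φ h (k + 1) hE hρ κ hκ ?_
    have h1 : ∑ x, rb φ P Q (k + 1) x * κ x =
        ∑ x, rb φ P Q k x * (vv (bc φ (derivative P)) (-((k + 1 : ℕ) : ZMod p)) x * κ x +
          vv (bc φ (derivative Q)) (-((k + 1 : ℕ) : ZMod p)) x * κ (x - 1)) +
        ∑ x, (vv (bc φ P) (-((k + 1 : ℕ) : ZMod p)) x *
          vv (bc φ (derivative (F P Q k))) (-(k : ZMod p)) x +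
        vv (bc φ Q) (-((k + 1 : ℕ) : ZMod p)) (x + 1) *
          vv (bc φ (derivative (F P Q k))) (-(k : ZMod p)) (x + 1)) * κ x := by
      have h2 : ∑ x, rb φ P Q k x * (vv (bc φ (derivative P)) (-((k + 1 : ℕ) : ZMod p)) x * κ x +
          vv (bc φ (derivative Q)) (-((k + 1 : ℕ) : ZMod p)) x * κ (x - 1)) =
          ∑ x, (rb φ P Q k x * vv (bc φ (derivative P)) (-((k + 1 : ℕ) : ZMod p)) x) * κ x +
          ∑ x, (rb φ P Q k x * vv (bc φ (derivative Q)) (-((k + 1 : ℕ) : ZMod p)) x) *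
            κ (x - 1) := by
        rw [← sum_add_distrib]
        exact sum_congr rfl fun x _ => by ring
      rw [h2, ← sum_shift (fun x => rb φ P Q k x *
        vv (bc φ (derivative Q)) (-((k + 1 : ℕ) : ZMod p)) x), ← sum_add_distrib,
        ← sum_add_distrib]
      refine sum_congr rfl fun x _ => ?_
      rw [rb_derivative φ h k he]
      ring
    rw [h1, hs, hker (fun x => vv (bc φ (derivative (F P Q k))) (-(k : ZMod p)) x) κ hκ,
      add_zero]

end red

end Pool.Agent.ShorBoth
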