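import Pool.Agent.ShorBoth.Fac
import Pool.Agent.ShorBoth.Ann

/-!
Coefficients which are linear in `n`: the theory modulo a prime.
-/

set_option autoImplicit false

namespace Pool.Agent.ShorBoth

open Polynomial Finset

section ops

variable {K : Type*} [Field K]

/-- The adjoint step at a fixed time. -/
noncomputable def LL (f g h : K[X]) : K[X] := f * h + (g * h).comp (X + 1)

theorem LL_add (f g h h' : K[X]) : LL f g (h + h') = LL f g h + LL f g h' := by
  unfold LL
  rw [mul_add, mul_add, add_comp]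
  ring

theorem LL_sub (f g h h' : K[X]) : LL f g (h - h') = LL f g h - LL f g h' := by
  unfold LL
  rw [mul_sub, mul_sub, sub_comp]
  ring

theorem LL_C_mul (f g h : K[X]) (c : K) : LL f g (C c * h) = C c * LL f g h := by
  unfold LL
  simp only [mul_comp, C_comp]
  ring

theorem LL_sum {ι : Type*} (s : Finset ι) (f g : K[X]) (h : ι → K[X]) :
    LL f g (∑ i ∈ s, h i) = ∑ i ∈ s, LL f g (h i) := by
  classical
  induction s using Finset.induction_on with
  | empty => simp [LL]
  | insert a s ha ih => rw [sum_insert ha, sum_insert ha, LL_add, ih]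

theorem natDegree_shift_le (r : K[X]) (N : ℕ) (h : r.natDegree ≤ N) :
    (r.comp (X + 1)).natDegree ≤ N := by
  refine natDegree_comp_le.trans ?_
  rw [← C_1, natDegree_X_add_C, mul_one]
  exact h

theorem coeff_shift (r : K[X]) (N : ℕ) (h : r.natDegree ≤ N) :
    (r.comp (X + 1)).coeff N = r.coeff N := by
  have hX : (X + 1 : K[X]).natDegree = 1 := by
    rw [← C_1]
    exact natDegree_X_add_C 1
  have hXl : (X + 1 : K[X]).leadingCoeff = 1 := by
    rw [← C_1]
    exact leadingCoeff_X_add_C 1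
  rcases h.lt_or_eq with h1 | h1
  · rw [coeff_eq_zero_of_natDegree_lt h1, coeff_eq_zero_of_natDegree_lt]
    rw [natDegree_comp, hX, mul_one]
    exact h1
  · subst h1
    have h2 := coeff_comp_degree_mul_degree (p := r) (q := (X + 1 : K[X])) (by rw [hX]; omega)
    rw [hX, hXl, mul_one, one_pow, mul_one] at h2
    exact h2

theorem LL_natDegree_le (f g h : K[X]) (N : ℕ) (hf : f.natDegree ≤ 1) (hg : g.natDegree ≤ 1)
    (hh : h.natDegree ≤ N) : (LL f g h).natDegree ≤ N + 1 := by
  unfold LL
  refine (natDegree_add_le _ _).trans (max_le ?_ ?_)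
  · refine natDegree_mul_le.trans ?_
    omega
  · refine natDegree_shift_le _ _ (natDegree_mul_le.trans ?_)
    omega

theorem LL_coeff (f g h : K[X]) (N : ℕ) (hf : f.natDegree ≤ 1) (hg : g.natDegree ≤ 1)
    (hh : h.natDegree ≤ N) :
    (LL f g h).coeff (N + 1) = (f.coeff 1 + g.coeff 1) * h.coeff N := by
  unfold LL
  rw [coeff_add, coeff_shift _ _ (natDegree_mul_le.trans (by omega)), add_comm N 1,
    coeff_mul_add_eq_of_natDegree_le hf hh, coeff_mul_add_eq_of_natDegree_le hg hh]
  ring

theorem LL_const (f g s : K[X]) (r : K) (hf : f.natDegree ≤ 1) (hg : g.natDegree ≤ 1)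
    (hq : f.coeff 1 + g.coeff 1 ≠ 0) (h : LL f g s = C r) : s = 0 ∧ r = 0 := by
  have hs : s = 0 := by
    by_contra hs0
    have h1 := LL_coeff f g s s.natDegree hf hg le_rfl
    rw [h, coeff_C_succ] at h1
    rcases mul_eq_zero.mp h1.symm with h2 | h2
    · exact hq h2
    · exact hs0 (leadingCoeff_eq_zero.mp h2)
  refine ⟨hs, ?_⟩
  rw [hs] at h
  have h2 := congrArg (fun G => G.coeff 0) h
  simp only [LL, mul_zero, zero_comp, add_zero, coeff_zero, coeff_C_zero] at h2
  exact h2.symm

/-- The product over all shifts. -/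
noncomputable def NN (p : ℕ) (f : K[X]) : K[X] := ∏ j ∈ range p, f.comp (X + C (j : K))

/-- The element mapped to the norms. -/
noncomputable def GG (p : ℕ) (f g : K[X]) : K[X] :=
  ∑ i ∈ range p, (-1) ^ i * ((∏ j ∈ range i, g.comp (X + C ((j + 1 : ℕ) : K))) *
    ∏ j ∈ Ico (i + 1) p, f.comp (X + C (j : K)))

theorem shift_comp (f : K[X]) (j : ℕ) :
    (f.comp (X + C (j : K))).comp (X + 1) = f.comp (X + C ((j + 1 : ℕ) : K)) := by
  rw [comp_assoc]
  congr 1
  simp only [add_comp, X_comp, C_comp]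
  push_cast
  simp only [map_add, map_natCast, map_one]
  ring

theorem LL_GG (p : ℕ) [CharP K p] (hodd : Odd p) (f g : K[X]) :
    LL f g (GG p f g) = NN p f + NN p g := by
  obtain ⟨r, hr⟩ := hodd
  set A : ℕ → K[X] := fun i => ∏ j ∈ range i, g.comp (X + C ((j + 1 : ℕ) : K)) with hA
  set B : ℕ → K[X] := fun i => ∏ j ∈ Ico (i + 1) p, f.comp (X + C (j : K)) with hB
  have hpC : f.comp (X + C ((p : ℕ) : K)) = f := by
    rw [CharP.cast_eq_zero, C_0, add_zero, comp_X]
  have hterm : ∀ i, i + 1 < p → ((g * (A i * B i)).comp (X + 1)) = f * (A (i + 1) * B (i + 1)) := by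
    intro i hi
    simp only [mul_comp, hA, hB]
    rw [Polynomial.prod_comp, Polynomial.prod_comp]
    simp only [shift_comp]
    rw [prod_range_succ']
    have e1 : ∏ j ∈ Ico (i + 1) p, f.comp (X + C ((j + 1 : ℕ) : K)) =
        (∏ j ∈ Ico (i + 1 + 1) p, f.comp (X + C (j : K))) * f := by
      have h1 := prod_Ico_add' (fun j : ℕ => f.comp (X + C (j : K))) (i + 1) p 1
      rw [h1, prod_Ico_succ_top (by omega), hpC]
    rw [e1]
    have e2 : g.comp (X + C ((0 + 1 : ℕ) : K)) = g.comp (X + 1) := by simp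
    rw [e2]
    ring
  have hlast : (g * (A (p - 1) * B (p - 1))).comp (X + 1) = A p := by
    have hp1 : p - 1 + 1 = p := by omega
    simp only [mul_comp, hA, hB]
    rw [hp1, Ico_self, prod_empty, one_comp, mul_one, Polynomial.prod_comp]
    simp only [shift_comp]
    conv_rhs => rw [← hp1, prod_range_succ']
    have e2 : g.comp (X + C ((0 + 1 : ℕ) : K)) = g.comp (X + 1) := by simp
    rw [e2]
    ring
  have hG : GG p f g = ∑ i ∈ range p, C ((-1) ^ i) * (A i * B i) := by
    unfold GG
    refine sum_congr rfl fun i _ => ?_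
    simp [hA, hB]
  rw [hG, LL_sum]
  simp only [LL_C_mul]
  obtain ⟨m, rfl⟩ : ∃ m, p = m + 1 := ⟨p - 1, by omega⟩
  rw [sum_range_succ]
  have h1 : ∀ i ∈ range m, C ((-1 : K) ^ i) * LL f g (A i * B i) =
      C ((-1 : K) ^ i) * (f * (A i * B i)) -
        C ((-1 : K) ^ (i + 1)) * (f * (A (i + 1) * B (i + 1))) := by
    intro i hi
    have hi' := mem_range.mp hi
    unfold LL
    rw [hterm i (by omega), pow_succ]
    simp only [map_mul, map_neg, map_one]
    ring
  rw [sum_congr rfl h1, sum_range_sub']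
  have h2 : LL f g (A m * B m) = f * (A m * B m) + A (m + 1) := by
    unfold LL
    rw [← hlast]
    simp
  rw [h2]
  have hev : Even m := ⟨r, by omega⟩
  rw [hev.neg_one_pow]
  have hA0 : A 0 = 1 := by simp [hA]
  have hN : f * B 0 = NN (m + 1) f := by
    simp only [hB, NN]
    rw [range_eq_Ico, prod_eq_prod_Ico_succ_bot (by omega : 0 < m + 1)]
    simp
  have hNg : A (m + 1) = NN (m + 1) g := by
    simp only [hA, NN]
    rw [prod_range_succ, prod_range_succ' (fun j : ℕ => g.comp (X + C (j : K)))]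
    have e : g.comp (X + C (((m + 1 : ℕ)) : K)) = g := by
      rw [CharP.cast_eq_zero, C_0, add_zero, comp_X]
    rw [e]
    simp
  rw [hA0, pow_zero, one_mul, hN, hNg]
  simp only [map_one, one_mul]
  ring

end ops

section fp

variable {p : ℕ} [hp : Fact p.Prime]

theorem prod_X_add_C : ∏ j ∈ range p, ((X : (ZMod p)[X]) + C ((j : ℕ) : ZMod p)) = X ^ p - X := by
  have h1 : ∏ j ∈ range p, ((X : (ZMod p)[X]) + C ((j : ℕ) : ZMod p)) =
      ∏ a : ZMod p, (X - C a) := by
    refine prod_bij (fun j _ => -((j : ℕ) : ZMod p)) (fun _ _ => mem_univ _) ?_ ?_ ?_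
    · intro a ha b hb hab
      have h2 : ((a : ℕ) : ZMod p) = (b : ℕ) := neg_injective hab
      rw [ZMod.natCast_eq_natCast_iff] at h2
      exact Nat.ModEq.eq_of_lt_of_lt h2 (mem_range.mp ha) (mem_range.mp hb)
    · intro b _
      refine ⟨(-b).val, mem_range.mpr (ZMod.val_lt _), ?_⟩
      rw [ZMod.natCast_zmod_val, neg_neg]
    · intro a _
      simp
  rw [h1]
  have hne := FiniteField.X_pow_card_sub_X_ne_zero (ZMod p) hp.out.one_lt
  have hdeg := FiniteField.X_pow_card_sub_X_natDegree_eq (ZMod p) hp.out.one_lt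
  have hroots : (X ^ p - X : (ZMod p)[X]).roots = univ.val := by
    have := FiniteField.roots_X_pow_card_sub_X (ZMod p)
    rwa [ZMod.card] at this
  have hmon : (X ^ p - X : (ZMod p)[X]).Monic := by
    have : (X ^ p - X : (ZMod p)[X]).Monic := monic_X_pow_sub (by
      rw [degree_X]
      exact_mod_cast hp.out.one_lt)
    exact this
  have h3 := prod_multiset_X_sub_C_of_monic_of_roots_card_eq hmon (by
    rw [hroots, hdeg]
    simp [ZMod.card])
  rw [hroots] at h3
  rw [← h3]
  rfl

theorem NN_linear (f : (ZMod p)[X]) (hf : f.natDegree ≤ 1) : NN p f =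
    C (f.coeff 1) * (X ^ p - X) + C (if f.coeff 1 = 0 then f.coeff 0 else 0) := by
  have hf' : f = C (f.coeff 1) * X + C (f.coeff 0) := eq_X_add_C_of_natDegree_le_one hf
  set b := f.coeff 1
  set a := f.coeff 0
  unfold NN
  by_cases hb : b = 0
  · have h1 : f = C a := by rw [hf', hb]; simp
    rw [if_pos hb, hb, h1]
    simp only [C_comp, prod_const, card_range, C_0, zero_mul, zero_add]
    rw [← C_pow, ZMod.pow_card]
  · rw [if_neg hb, C_0, add_zero]
    have h1 : ∀ j ∈ range p, f.comp (X + C ((j : ℕ) : ZMod p)) =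
        C b * ((X + C ((j : ℕ) : ZMod p)).comp (X + C (a / b))) := by
      intro j _
      rw [hf']
      simp only [add_comp, mul_comp, C_comp, X_comp]
      have : C a = C b * C (a / b) := by
        rw [← C_mul]
        congr 1
        field_simp
      rw [this]
      ring
    rw [prod_congr rfl h1, prod_mul_distrib, prod_const, card_range, ← C_pow, ZMod.pow_card,
      ← Polynomial.prod_comp, prod_X_add_C]
    simp only [sub_comp, pow_comp, X_comp]
    rw [add_pow_char, ← C_pow, ZMod.pow_card]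
    ring

theorem sum_eval_zero (f : (ZMod p)[X]) (hf : f.natDegree ≤ p - 1) (h0 : f.coeff (p - 1) = 0) :
    ∑ x, f.eval x = 0 := by
  have h1 : ∀ x ∈ (univ : Finset (ZMod p)), f.eval x =
      ∑ i ∈ range (p - 1), f.coeff i * x ^ i := by
    intro x _
    rw [eval_eq_sum_range' (n := p - 1 + 1) (by omega), sum_range_succ, h0, zero_mul, add_zero]
  rw [sum_congr rfl h1, sum_comm]
  refine sum_eq_zero fun i hi => ?_
  rw [← mul_sum, FiniteField.sum_pow_lt_card_sub_one, mul_zero]
  rw [ZMod.card]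
  exact mem_range.mp hi

variable (P Q : (ZMod p)[X][X])

/-- The iterates at a fixed time. -/
noncomputable def tp (k : ℕ) (a : ZMod p) : (ZMod p)[X] := (T P Q k).eval (C a)

theorem tp_zero (a : ZMod p) : tp P Q 0 a = 1 := by simp [tp, T]

theorem tp_succ (k : ℕ) (a : ZMod p) : tp P Q (k + 1) a =
    LL (P.eval (C a)) (Q.eval (C a)) (tp P Q k (a + 1)) := by
  unfold tp LL
  rw [T, Lop, eval_add, eval_mul, ns_eval, eval_mul, ms_eval]
  simp

variable {P Q}

section deg

variable (hP : ∀ a : ZMod p, (P.eval (C a)).natDegree ≤ 1)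
  (hQ : ∀ a : ZMod p, (Q.eval (C a)).natDegree ≤ 1)

include hP hQ

theorem tp_natDegree (k : ℕ) : ∀ a, (tp P Q k a).natDegree ≤ k := by
  induction k with
  | zero => intro a; rw [tp_zero]; simp
  | succ k ih =>
    intro a
    rw [tp_succ]
    exact LL_natDegree_le _ _ _ _ (hP a) (hQ a) (ih _)

theorem tp_coeff (k : ℕ) : ∀ a, (tp P Q k a).coeff k =
    ∏ i ∈ range k, ((P.eval (C (a + (i : ℕ)))).coeff 1 + (Q.eval (C (a + (i : ℕ)))).coeff 1) := by
  induction k with
  | zero => intro a; rw [tp_zero]; simp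
  | succ k ih =>
    intro a
    rw [tp_succ, LL_coeff _ _ _ _ (hP a) (hQ a) (tp_natDegree hP hQ _ _), ih,
      prod_range_succ' (fun i => ((P.eval (C (a + (i : ℕ)))).coeff 1 +
        (Q.eval (C (a + (i : ℕ)))).coeff 1))]
    rw [mul_comm]
    congr 1
    · refine prod_congr rfl fun i _ => ?_
      have e : a + 1 + (i : ZMod p) = a + ((i + 1 : ℕ) : ZMod p) := by push_cast; ring
      rw [e]
    · simp

end deg

theorem pair_tp (h : Adm P Q) (k t : ℕ) (ht : 1 ≤ t) (a : ZMod p) (hta : (t : ZMod p) = a) :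
    ∑ x, (tp P Q k a).eval x * fold P Q t x = ((t + k : ℕ) : ZMod p) ^ (t + k) := by
  rw [pair_fold P Q t (fun x => (tp P Q k a).eval x)]
  have h1 := mu_T h k t ht
  rw [hta] at h1
  push_cast
  rw [hta]
  exact h1

/-- No drop of the degree at the times `0, …, p - 2`. -/
theorem lead_ne_zero (h : Adm P Q) (hP : ∀ a : ZMod p, (P.eval (C a)).natDegree ≤ 1)
    (hQ : ∀ a : ZMod p, (Q.eval (C a)).natDegree ≤ 1) (i : ℕ) (hi : i < p - 1) :
    (P.eval (C ((i : ℕ) : ZMod p))).coeff 1 + (Q.eval (C ((i : ℕ) : ZMod p))).coeff 1 ≠ 0 := by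
  have hp1 := hp.out.one_lt
  intro h0
  have hc : (tp P Q (p - 1) 0).coeff (p - 1) = 0 := by
    rw [tp_coeff hP hQ]
    refine prod_eq_zero (mem_range.mpr hi) ?_
    rw [zero_add]
    exact h0
  have hp0 : ((p : ℕ) : ZMod p) = 0 := CharP.cast_eq_zero _ _
  have key := vector_zero (Lm P Q) (fold P Q) (fun t ht => fold_step P Q t ht)
    (fun t ht => sum_fold P Q h t ht) p (by omega) (fun _ => 1)
    (by
      intro h1
      exact one_ne_zero (congrFun h1 0))
    (by
      intro l _
      simp only [one_mul]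
      rw [sum_fold P Q h _ (by omega)]
      push_cast
      rw [hp0, mul_zero, add_zero, zero_pow (by omega)])
    (fun k x => (tp P Q k 0).eval x)
    (by
      intro k l
      refine pair_tp h k _ (by omega) 0 ?_
      push_cast
      rw [hp0, mul_zero, add_zero])
    (fun _ => 1)
    (by simp)
    (by
      intro k hk
      simp only [mul_one]
      have h2 : (tp P Q k 0).natDegree ≤ k := tp_natDegree hP hQ k 0
      refine sum_eval_zero _ (by omega) ?_
      rcases Nat.lt_or_ge k (p - 1) with h3 | h3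
      · exact coeff_eq_zero_of_natDegree_lt (by omega)
      · have : k = p - 1 := by omega
        rw [this]
        exact hc)
  exact one_ne_zero (congrFun key 0)

end fp

end Pool.Agent.ShorBoth
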