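import Pool.Agent.ShorBoth.Lin

/-!
Coefficients which are linear in `n`: the cokernels of the adjoint steps modulo a prime.
-/

set_option autoImplicit false

namespace Pool.Agent.ShorBoth

open Polynomial Finset

section

variable {p : ℕ} [hp : Fact p.Prime] {P Q : (ZMod p)[X][X]}

/-- The constant part of the norm. -/
noncomputable def cc (f g : (ZMod p)[X]) : ZMod p :=
  (if f.coeff 1 = 0 then f.coeff 0 else 0) + (if g.coeff 1 = 0 then g.coeff 0 else 0)

theorem LL_GG' (hodd : Odd p) (f g : (ZMod p)[X]) (hf : f.natDegree ≤ 1) (hg : g.natDegree ≤ 1)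
    (q : ZMod p) (hq : f.coeff 1 + g.coeff 1 = q) :
    LL f g (GG p f g) = C q * (X ^ p - X) + C (cc f g) := by
  rw [LL_GG p hodd, NN_linear f hf, NN_linear g hg, ← hq, cc]
  simp only [map_add]
  ring

theorem main_identity (h : Adm P Q) (hP : ∀ a : ZMod p, (P.eval (C a)).natDegree ≤ 1)
    (hQ : ∀ a : ZMod p, (Q.eval (C a)).natDegree ≤ 1) (q : ZMod p) (hq : q ≠ 0)
    (hl : ∀ a : ZMod p, (P.eval (C a)).coeff 1 + (Q.eval (C a)).coeff 1 = q) (a : ZMod p) :
    ∃ x : ZMod p, tp P Q p a = C q * (X ^ p - X) + C a + C x * tp P Q (-a).val a := by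
  have hp1 := hp.out.one_lt
  set j := (-a).val with hj
  have hjp : j < p := ZMod.val_lt _
  have hja : ((j : ℕ) : ZMod p) = -a := ZMod.natCast_zmod_val _
  have hcoeff : ∀ k b, (tp P Q k b).coeff k = q ^ k := by
    intro k b
    rw [tp_coeff hP hQ]
    simp only [hl]
    rw [prod_const, card_range]
  have hlt : j < p * (j + 1) := by nlinarith
  set t := p * (j + 1) - j with ht
  have ht1 : 1 ≤ t := by omega
  have htj : ∀ l, t + l * p + j = p * (j + 1 + l) := by
    intro l
    have : p * (j + 1 + l) = p * (j + 1) + l * p := by ring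
    omega
  have hp0 : ((p : ℕ) : ZMod p) = 0 := CharP.cast_eq_zero _ _
  have hcast : ∀ l, ((t + l * p : ℕ) : ZMod p) = a := by
    intro l
    have h1 : ((t + l * p + j : ℕ) : ZMod p) = 0 := by
      rw [htj, Nat.cast_mul, hp0, zero_mul]
    rw [Nat.cast_add, hja] at h1
    linear_combination h1
  have hρ : (fun x => (tp P Q j a).eval x) ≠ 0 := by
    intro h0
    have h1 : tp P Q j a = 0 := by
      refine Polynomial.eq_zero_of_natDegree_lt_card_of_eval_eq_zero' _
        (univ : Finset (ZMod p)) (fun x _ => congrFun h0 x) ?_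
      rw [card_univ, ZMod.card]
      exact lt_of_le_of_lt (tp_natDegree hP hQ j a) hjp
    have h2 := hcoeff j a
    rw [h1, coeff_zero] at h2
    exact pow_ne_zero j hq h2.symm
  obtain ⟨x, hx⟩ := ann_unique (Lm P Q) (fold P Q) (fun t ht => fold_step P Q t ht)
    (fun t ht => sum_fold P Q h t ht) t ht1 (fun x => (tp P Q j a).eval x) hρ
    (by
      intro l _
      rw [pair_tp h j _ (by omega) a (hcast l), htj, Nat.cast_mul, hp0, zero_mul, zero_pow]
      have : p * 1 ≤ p * (j + 1 + l) := Nat.mul_le_mul_left _ (by omega)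
      omega)
    (fun x => (tp P Q p a).eval x - a)
    (by
      intro l _
      have h1 := pair_tp h p (t + l * p) (by omega) a (hcast l)
      have h2 := sum_fold P Q h (t + l * p) (by omega)
      have h3 : ∀ x ∈ (univ : Finset (ZMod p)), ((tp P Q p a).eval x - a) *
          fold P Q (t + l * p) x = (tp P Q p a).eval x * fold P Q (t + l * p) x -
            a * fold P Q (t + l * p) x := by
        intro x _
        ring
      rw [sum_congr rfl h3, sum_sub_distrib, ← mul_sum, h1, h2, Nat.cast_add, hp0, add_zero,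
        hcast, pow_add, ZMod.pow_card]
      ring)
  refine ⟨x, ?_⟩
  rw [← sub_eq_zero]
  set D := tp P Q p a - (C q * (X ^ p - X) + C a + C x * tp P Q j a) with hD
  by_contra hD0
  have hdeg : D.natDegree ≤ p := by
    rw [hD]
    refine (natDegree_sub_le _ _).trans (max_le (tp_natDegree hP hQ p a) ?_)
    refine (natDegree_add_le _ _).trans (max_le ?_ ?_)
    · refine (natDegree_add_le _ _).trans (max_le ?_ (by rw [natDegree_C]; omega))
      refine (natDegree_C_mul_le _ _).trans ?_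
      rw [FiniteField.X_pow_card_sub_X_natDegree_eq (ZMod p) hp1]
    · refine (natDegree_C_mul_le _ _).trans ?_
      exact (tp_natDegree hP hQ j a).trans hjp.le
  have hcoeffp : D.coeff p = 0 := by
    rw [hD, coeff_sub, coeff_add, coeff_add, hcoeff, coeff_C_mul, coeff_C_mul, coeff_sub,
      coeff_X_pow, if_pos rfl, coeff_X, if_neg (by omega), coeff_C, if_neg (by omega),
      coeff_eq_zero_of_natDegree_lt (lt_of_le_of_lt (tp_natDegree hP hQ j a) hjp),
      ZMod.pow_card]
    ring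
  have hlt' : D.natDegree < p := by
    rcases hdeg.lt_or_eq with h1 | h1
    · exact h1
    · exfalso
      apply hD0
      apply leadingCoeff_eq_zero.mp
      rw [leadingCoeff, h1]
      exact hcoeffp
  apply hD0
  refine Polynomial.eq_zero_of_natDegree_lt_card_of_eval_eq_zero' _
    (univ : Finset (ZMod p)) (fun y _ => ?_) (by rw [card_univ, ZMod.card]; exact hlt')
  have h1 : (tp P Q p a).eval y - a = x * (tp P Q j a).eval y := hx y
  rw [hD]
  simp only [eval_sub, eval_add, eval_mul, eval_C, eval_pow, eval_X, ZMod.pow_card]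
  linear_combination h1

section cons

variable (h : Adm P Q) (hP : ∀ a : ZMod p, (P.eval (C a)).natDegree ≤ 1)
    (hQ : ∀ a : ZMod p, (Q.eval (C a)).natDegree ≤ 1) (q : ZMod p) (hq : q ≠ 0)
    (hl : ∀ a : ZMod p, (P.eval (C a)).coeff 1 + (Q.eval (C a)).coeff 1 = q) (hodd : Odd p)

include h hP hQ hq hl hodd

theorem const_eq (a : ZMod p) (ha : a ≠ 0) : cc (P.eval (C a)) (Q.eval (C a)) = a ∧
    ∃ x : ZMod p, GG p (P.eval (C a)) (Q.eval (C a)) =
      tp P Q (p - 1) (a + 1) - C x * tp P Q ((-a).val - 1) (a + 1) := by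
  obtain ⟨x, hx⟩ := main_identity h hP hQ q hq hl a
  have hp1 := hp.out.one_lt
  have hj : (-a).val ≠ 0 := by
    rw [Ne, ZMod.val_eq_zero]
    exact neg_ne_zero.mpr ha
  obtain ⟨j, hj'⟩ : ∃ j, (-a).val = j + 1 := ⟨(-a).val - 1, by omega⟩
  obtain ⟨r, hr⟩ : ∃ r, p = r + 1 := ⟨p - 1, by omega⟩
  have e1 : tp P Q p a = LL (P.eval (C a)) (Q.eval (C a)) (tp P Q (p - 1) (a + 1)) := by
    have : tp P Q (p - 1 + 1) a = LL (P.eval (C a)) (Q.eval (C a)) (tp P Q (p - 1) (a + 1)) :=
      tp_succ P Q (p - 1) a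
    rwa [Nat.sub_add_cancel (by omega)] at this
  have e2 := tp_succ P Q j a
  rw [hj'] at hx ⊢
  have h1 : LL (P.eval (C a)) (Q.eval (C a)) (GG p (P.eval (C a)) (Q.eval (C a)) -
      tp P Q (p - 1) (a + 1) + C x * tp P Q j (a + 1)) =
      C (cc (P.eval (C a)) (Q.eval (C a)) - a) := by
    rw [LL_add, LL_sub, LL_C_mul, ← e1, ← e2, LL_GG' hodd _ _ (hP a) (hQ a) q (hl a), hx]
    simp only [map_sub]
    ring
  obtain ⟨h2, h3⟩ := LL_const _ _ _ _ (hP a) (hQ a) (by rw [hl]; exact hq) h1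
  refine ⟨sub_eq_zero.mp h3, x, ?_⟩
  rw [Nat.add_sub_cancel]
  linear_combination h2

theorem GG_at_zero : GG p (P.eval (C 0)) (Q.eval (C 0)) = tp P Q (p - 1) 1 := by
  obtain ⟨x, hx⟩ := main_identity h hP hQ q hq hl 0
  have hp1 := hp.out.one_lt
  have e1 : tp P Q p 0 = LL (P.eval (C 0)) (Q.eval (C 0)) (tp P Q (p - 1) 1) := by
    have : tp P Q (p - 1 + 1) 0 =
        LL (P.eval (C 0)) (Q.eval (C 0)) (tp P Q (p - 1) (0 + 1)) :=
      tp_succ P Q (p - 1) 0
    rwa [Nat.sub_add_cancel (by omega), zero_add] at this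
  rw [neg_zero, ZMod.val_zero, tp_zero] at hx
  have h1 : LL (P.eval (C 0)) (Q.eval (C 0)) (GG p (P.eval (C 0)) (Q.eval (C 0)) -
      tp P Q (p - 1) 1) = C (cc (P.eval (C 0)) (Q.eval (C 0)) - x) := by
    rw [LL_sub, ← e1, LL_GG' hodd _ _ (hP 0) (hQ 0) q (hl 0), hx]
    simp only [map_sub, map_zero]
    ring
  obtain ⟨h2, -⟩ := LL_const _ _ _ _ (hP 0) (hQ 0) (by rw [hl]; exact hq) h1
  exact sub_eq_zero.mp h2

theorem GG_image (hp3 : 3 ≤ p) (a : ZMod p) (ha : a ≠ -1) :
    ∃ s, GG p (P.eval (C a)) (Q.eval (C a)) =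
      LL (P.eval (C (a + 1))) (Q.eval (C (a + 1))) s := by
  have e3 : tp P Q (p - 1) (a + 1) = LL (P.eval (C (a + 1))) (Q.eval (C (a + 1)))
      (tp P Q (p - 2) (a + 1 + 1)) := by
    have : tp P Q (p - 2 + 1) (a + 1) = LL (P.eval (C (a + 1))) (Q.eval (C (a + 1)))
        (tp P Q (p - 2) (a + 1 + 1)) := tp_succ P Q (p - 2) (a + 1)
    rwa [show p - 2 + 1 = p - 1 by omega] at this
  by_cases ha0 : a = 0
  · subst ha0
    refine ⟨tp P Q (p - 2) (0 + 1 + 1), ?_⟩
    rw [← e3, GG_at_zero h hP hQ q hq hl hodd, zero_add]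
  · obtain ⟨-, x, hx⟩ := const_eq h hP hQ q hq hl hodd a ha0
    have hj : (-a).val ≠ 0 := by
      rw [Ne, ZMod.val_eq_zero]
      exact neg_ne_zero.mpr ha0
    have hj1 : (-a).val ≠ 1 := by
      intro h1
      apply ha
      have h2 : ((-a).val : ZMod p) = -a := ZMod.natCast_zmod_val _
      rw [h1, Nat.cast_one] at h2
      linear_combination h2
    obtain ⟨j, hj'⟩ : ∃ j, (-a).val - 1 = j + 1 := ⟨(-a).val - 2, by omega⟩
    rw [hj'] at hx
    refine ⟨tp P Q (p - 2) (a + 1 + 1) - C x * tp P Q j (a + 1 + 1), ?_⟩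
    rw [hx, LL_sub, LL_C_mul, ← e3, ← tp_succ]

theorem no_repeat (hp3 : 3 ≤ p) (a : ZMod p) (ha : a ≠ -1) (h0 : P.eval (C a) = C a)
    (h1 : P.eval (C (a + 1)) = C (a + 1)) (hg : Q.eval (C (a + 1)) = Q.eval (C a)) : False := by
  obtain ⟨s, hs⟩ := GG_image h hP hQ q hq hl hodd hp3 a ha
  set g := Q.eval (C a) with hgdef
  have hgdeg : g.natDegree ≤ 1 := hQ a
  have hgq : (C a : (ZMod p)[X]).coeff 1 + g.coeff 1 = q := by
    have := hl a
    rw [h0] at this
    exact this
  have hgq1 : (C (a + 1) : (ZMod p)[X]).coeff 1 + g.coeff 1 = q := by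
    have := hl (a + 1)
    rw [h1, hg] at this
    exact this
  have hg1 : g.coeff 1 ≠ 0 := by
    rw [coeff_C, if_neg one_ne_zero, zero_add] at hgq
    rw [hgq]
    exact hq
  rw [h0, h1, hg] at hs
  have hc0 : cc (C a) g = a := by
    rw [cc, coeff_C, if_neg one_ne_zero, if_pos rfl, if_neg hg1, coeff_C_zero, add_zero]
  have hc1 : cc (C (a + 1)) g = a + 1 := by
    rw [cc, coeff_C, if_neg one_ne_zero, if_pos rfl, if_neg hg1, coeff_C_zero, add_zero]
  have k0 := LL_GG' hodd (C a) g (by simp) hgdeg q hgq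
  have k1 := LL_GG' hodd (C (a + 1)) g (by simp) hgdeg q hgq1
  rw [hc0] at k0
  rw [hc1] at k1
  have hstep : ∀ r, LL (C (a + 1)) g r = LL (C a) g r + r := by
    intro r
    unfold LL
    simp only [map_add, map_one]
    ring
  have k2 : LL (C (a + 1)) g (GG p (C (a + 1)) g - GG p (C a) g + s) = C 1 := by
    rw [LL_add, LL_sub, k1, hstep (GG p (C a) g), k0, ← hs]
    simp only [map_add, map_one]
    ring
  obtain ⟨-, h3⟩ := LL_const _ _ _ _ (by simp) hgdeg (by rw [hgq1]; exact hq) k2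
  exact one_ne_zero h3

end cons

end

end Pool.Agent.ShorBoth
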