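import Pool.Agent.ShorBoth.Main
import Pool.Agent.ShorBoth.Lin2

/-!
Coefficients which are linear in `n`: only Shor's pair is admissible.
-/

set_option autoImplicit false

namespace Pool.Agent.ShorBoth

open Polynomial Finset

section transfer

variable {p : ℕ} [hp : Fact p.Prime] (V : Subring ℂ) (φ : V →+* ZMod p)
  {P : ℂ[X][X]} {P' : V[X][X]} (hP' : bc V.subtype P' = P)

include hP'

theorem tr_coeff (a : V) (k : ℕ) :
    V.subtype ((P'.eval (C a)).coeff k) = (cf P k).eval (a : ℂ) := by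
  rw [cf_eval, ← hP']
  have h := bc_eval V.subtype P' a
  have e : (V.subtype a : ℂ) = (a : ℂ) := rfl
  rw [e] at h
  rw [h, coeff_map]

theorem tr_natDegree (hdeg : ∀ j, (P.coeff j).natDegree ≤ 1) (b : ZMod p) :
    ((bc φ P').eval (C b)).natDegree ≤ 1 := by
  have hb : b = φ (b.val : V) := by
    rw [map_natCast, ZMod.natCast_zmod_val]
  rw [hb, bc_eval]
  refine natDegree_map_le.trans ?_
  have hinj : Function.Injective V.subtype := Subtype.val_injective
  rw [← natDegree_map_eq_of_injective hinj, ← bc_eval, hP']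
  refine (natDegree_eval_le P _).trans ?_
  exact Finset.sup_le fun j _ => hdeg j

end transfer

theorem tr_coeff' {p : ℕ} [hp : Fact p.Prime] (V : Subring ℂ) (φ : V →+* ZMod p)
    (P' : V[X][X]) (a : V) (k : ℕ) :
    ((bc φ P').eval (C (φ a))).coeff k = φ ((P'.eval (C a)).coeff k) := by
  rw [bc_eval, coeff_map]

/-- The leading coefficients have no root other than `-1`. -/
theorem root_neg_one {P Q : ℂ[X][X]} (h : Adm P Q) (hP : ∀ j, (P.coeff j).natDegree ≤ 1)
    (hQ : ∀ j, (Q.coeff j).natDegree ≤ 1) (m : ℂ) (hm : (cf P 1 + cf Q 1).eval m = 0) :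
    m = -1 := by
  classical
  by_contra hne
  obtain ⟨p, hpN, hF, V, hV, ⟨φ⟩⟩ := exists_hom
    (coefs P ∪ (coefs Q ∪ ({m} ∪ {(m + 1)⁻¹}))) 2
  simp only [mem_union, mem_singleton] at hV
  obtain ⟨P', hP'⟩ := exists_lift V P fun x hx => hV x (Or.inl hx)
  obtain ⟨Q', hQ'⟩ := exists_lift V Q fun x hx => hV x (Or.inr (Or.inl hx))
  have hmV : m ∈ V := hV m (Or.inr (Or.inr (Or.inl rfl)))
  have hmV' : (m + 1)⁻¹ ∈ V := hV _ (Or.inr (Or.inr (Or.inr rfl)))
  have hinj : Function.Injective V.subtype := Subtype.val_injective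
  have hadm : Adm P' Q' := adm_of_map V.subtype hinj (by rw [hP', hQ']; exact h)
  have hadmp := adm_map φ hadm
  set b := φ ⟨m, hmV⟩ with hb
  have hb1 : b ≠ -1 := by
    intro h1
    have h2 : ((⟨m, hmV⟩ : V) + 1) * ⟨(m + 1)⁻¹, hmV'⟩ = 1 := by
      apply Subtype.val_injective
      show (m + 1) * (m + 1)⁻¹ = 1
      refine mul_inv_cancel₀ ?_
      intro h3
      exact hne (eq_neg_of_add_eq_zero_left h3)
    have h3 := congrArg φ h2
    rw [map_mul, map_add, map_one, ← hb, h1, neg_add_cancel, zero_mul] at h3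
    exact zero_ne_one h3
  have hlt : b.val < p - 1 := by
    have h1 := ZMod.val_lt b
    by_contra h2
    have h3 : b.val = p - 1 := by omega
    apply hb1
    have h4 : ((b.val : ℕ) : ZMod p) = b := ZMod.natCast_zmod_val b
    rw [h3, Nat.cast_sub (by omega), CharP.cast_eq_zero, Nat.cast_one] at h4
    rw [← h4]
    ring
  have key := lead_ne_zero hadmp (tr_natDegree V φ hP' hP) (tr_natDegree V φ hQ' hQ) b.val hlt
  apply key
  rw [ZMod.natCast_zmod_val, hb, tr_coeff', tr_coeff', ← map_add]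
  have h1 : (P'.eval (C ⟨m, hmV⟩)).coeff 1 + (Q'.eval (C ⟨m, hmV⟩)).coeff 1 = 0 := by
    apply hinj
    rw [map_add, tr_coeff V hP', tr_coeff V hQ', map_zero, ← eval_add]
    exact hm
  rw [h1, map_zero]

/-- The leading coefficients do not both vanish at `-1`. -/
theorem lead_neg_one {P Q : ℂ[X][X]} (h : Adm P Q) (hP : ∀ j, (P.coeff j).natDegree ≤ 1)
    (hQ : ∀ j, (Q.coeff j).natDegree ≤ 1) : (cf P 1 + cf Q 1).eval (-1) ≠ 0 := by
  classical
  intro hm
  set ρ := (F P Q 1).eval (C (-((1 : ℕ) : ℂ))) with hρdef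
  have hρ0 : ρ ≠ 0 := rho_ne_zero h 1
  obtain ⟨p, hpN, hF, V, hV, ⟨φ⟩⟩ := exists_hom
    (coefs P ∪ (coefs Q ∪ {(ρ.leadingCoeff)⁻¹})) (max (E P Q 1) (ρ.natDegree + 2))
  simp only [mem_union, mem_singleton] at hV
  obtain ⟨P', hP'⟩ := exists_lift V P fun x hx => hV x (Or.inl hx)
  obtain ⟨Q', hQ'⟩ := exists_lift V Q fun x hx => hV x (Or.inr (Or.inl hx))
  have hVρ : (ρ.leadingCoeff)⁻¹ ∈ V := hV _ (Or.inr (Or.inr rfl))
  have hinj : Function.Injective V.subtype := Subtype.val_injective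
  have hadm : Adm P' Q' := adm_of_map V.subtype hinj (by rw [hP', hQ']; exact h)
  have hadmp := adm_map φ hadm
  have hE : E P' Q' 1 = E P Q 1 := by
    rw [← E_map V.subtype hinj 1, hP', hQ']
  have hpE : E P' Q' 1 < p := by
    rw [hE]
    exact lt_of_le_of_lt (le_max_left _ _) hpN
  have hpρ : ρ.natDegree + 2 < p := lt_of_le_of_lt (le_max_right _ _) hpN
  have hFm : bc V.subtype (F P' Q' 1) = F P Q 1 := by
    rw [F_map V.subtype hinj, hP', hQ']
  set ρ' : V[X] := (F P' Q' 1).eval (C (-((1 : ℕ) : V))) with hρ'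
  have hρmap : ρ'.map V.subtype = ρ := by
    rw [hρ', ← bc_eval, hFm, hρdef]
    simp
  have hρφ : ∀ x, rb φ P' Q' 1 x = (ρ'.map φ).eval x := by
    intro x
    rw [hρ', ← bc_eval]
    unfold rb vv
    simp
  have hdegρ : (ρ'.map φ).natDegree ≤ ρ.natDegree := by
    refine natDegree_map_le.trans ?_
    rw [← natDegree_map_eq_of_injective hinj, hρmap]
  have hrb : rb φ P' Q' 1 ≠ 0 := by
    intro h0
    have h1 : ρ'.map φ = 0 := by
      refine Polynomial.eq_zero_of_natDegree_lt_card_of_eval_eq_zero' (ρ'.map φ)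
        (univ : Finset (ZMod p)) ?_ ?_
      · intro x _
        rw [← hρφ, h0]
        rfl
      · rw [card_univ, ZMod.card]
        omega
    have h2 : φ (ρ'.coeff ρ.natDegree) = 0 := by
      rw [← coeff_map, h1, coeff_zero]
    have h3 : (ρ'.coeff ρ.natDegree : V) * ⟨(ρ.leadingCoeff)⁻¹, hVρ⟩ = 1 := by
      apply hinj
      rw [map_mul, ← coeff_map, hρmap, map_one]
      show ρ.leadingCoeff * (ρ.leadingCoeff)⁻¹ = 1
      exact mul_inv_cancel₀ (leadingCoeff_ne_zero.mpr hρ0)
    have h4 := congrArg φ h3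
    rw [map_mul, h2, zero_mul, map_one] at h4
    exact zero_ne_one h4
  have hp0 : ((p : ℕ) : ZMod p) = 0 := CharP.cast_eq_zero _ _
  have hcast : ∀ l, ((p * 2 - 1 + l * p : ℕ) : ZMod p) = -1 := by
    intro l
    rw [Nat.cast_add, Nat.cast_mul, Nat.cast_sub (by omega), Nat.cast_mul, hp0]
    simp
  have hlead : ((bc φ P').eval (C (-1))).coeff 1 + ((bc φ Q').eval (C (-1))).coeff 1 = 0 := by
    have e : (-1 : ZMod p) = φ (-1) := by simp
    rw [e, tr_coeff', tr_coeff', ← map_add]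
    have h1 : (P'.eval (C (-1))).coeff 1 + (Q'.eval (C (-1))).coeff 1 = 0 := by
      apply hinj
      rw [map_add, tr_coeff V hP', tr_coeff V hQ', map_zero, ← eval_add]
      simpa using hm
    rw [h1, map_zero]
  have key := vector_zero (Lm (bc φ P') (bc φ Q')) (fold (bc φ P') (bc φ Q'))
    (fun t ht => fold_step _ _ t ht) (fun t ht => sum_fold _ _ hadmp t ht) (p * 2 - 1)
    (by omega) (rb φ P' Q' 1) hrb
    (by
      intro l _
      rw [pair_fold]
      have hlp : p * 2 - 1 + l * p + 1 = p * (2 + l) := by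
        have : p * (2 + l) = p * 2 + l * p := by ring
        omega
      have hbig : p * 1 ≤ p * (2 + l) := Nat.mul_le_mul_left _ (by omega)
      have h2 := congrArg φ (mu_F hadm 1 (p * 2 - 1 + l * p) (by omega) (by omega))
      rw [map_mu, map_pow, map_add, map_natCast, map_natCast, hcast, Nat.cast_one,
        neg_add_cancel, zero_pow] at h2
      · rw [← h2]
        refine mu_congr fun n => ?_
        rw [← vv_bc, map_natCast, map_natCast, hcast]
        unfold rb
        rw [Nat.cast_one]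
      · omega)
    (fun k x => (tp (bc φ P') (bc φ Q') k (-1)).eval x)
    (fun k l => pair_tp hadmp k _ (by omega) (-1) (hcast l))
    (fun _ => 1)
    (by
      simp only [mul_one]
      rw [sum_congr rfl fun x _ => hρφ x]
      refine sum_eval_zero _ (by omega) (coeff_eq_zero_of_natDegree_lt (by omega)))
    (by
      intro k hk
      simp only [mul_one]
      have h2 := tp_natDegree (tr_natDegree V φ hP' hP) (tr_natDegree V φ hQ' hQ) k (-1)
      refine sum_eval_zero _ (by omega) ?_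
      rcases Nat.lt_or_ge k (p - 1) with h3 | h3
      · exact coeff_eq_zero_of_natDegree_lt (by omega)
      · have hk' : p - 1 = k := by omega
        rw [hk', tp_coeff (tr_natDegree V φ hP' hP) (tr_natDegree V φ hQ' hQ)]
        refine prod_eq_zero (mem_range.mpr (show 0 < k by omega)) ?_
        rw [Nat.cast_zero, add_zero]
        exact hlead)
  exact one_ne_zero (congrFun key 0)

/-- The leading coefficients add up to a nonzero constant. -/
theorem lead_const {P Q : ℂ[X][X]} (h : Adm P Q) (hP : ∀ j, (P.coeff j).natDegree ≤ 1)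
    (hQ : ∀ j, (Q.coeff j).natDegree ≤ 1) : ∃ q : ℂ, q ≠ 0 ∧ cf P 1 + cf Q 1 = C q := by
  set l := cf P 1 + cf Q 1 with hl
  have hroot : ∀ m, l.eval m ≠ 0 := by
    intro m hm
    have h1 := root_neg_one h hP hQ m hm
    rw [h1] at hm
    exact lead_neg_one h hP hQ hm
  have hdeg : l.degree = 0 := by
    by_contra h0
    obtain ⟨x, hx⟩ := IsAlgClosed.exists_root l h0
    exact hroot x hx
  have hC := eq_C_of_degree_eq_zero hdeg
  refine ⟨l.coeff 0, ?_, hC⟩
  intro h0
  apply hroot 0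
  rw [hC, h0]
  simp

theorem const_part {P Q : ℂ[X][X]} (h : Adm P Q) (hP : ∀ j, (P.coeff j).natDegree ≤ 1)
    (hQ : ∀ j, (Q.coeff j).natDegree ≤ 1) :
    (cf P 1 = 0 → cf P 0 = X) ∧ (cf Q 1 = 0 → cf Q 0 = X) := by
  classical
  obtain ⟨q, hq0, hq⟩ := lead_const h hP hQ
  -- a common reduction
  have main : ∀ (j : ℕ) (z : ℂ), 1 ≤ j → z ≠ 0 → ∃ p : ℕ, ∃ hF : Fact p.Prime, ∃ V : Subring ℂ,
      ∃ φ : V →+* ZMod p, ∃ P' Q' : V[X][X], bc V.subtype P' = P ∧ bc V.subtype Q' = Q ∧
        (∀ w : V, (w : ℂ) = z → φ w ≠ 0) ∧ (∀ w : V, (w : ℂ) = q → φ w ≠ 0) ∧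
        cc ((bc φ P').eval (C (φ (-(j : V))))) ((bc φ Q').eval (C (φ (-(j : V))))) =
          φ (-(j : V)) := by
    intro j z hj hz
    obtain ⟨p, hpN, hF, V, hV, ⟨φ⟩⟩ := exists_hom
      (coefs P ∪ (coefs Q ∪ ({z⁻¹} ∪ ({q} ∪ {q⁻¹})))) (max 2 j)
    simp only [mem_union, mem_singleton] at hV
    obtain ⟨P', hP'⟩ := exists_lift V P fun x hx => hV x (Or.inl hx)
    obtain ⟨Q', hQ'⟩ := exists_lift V Q fun x hx => hV x (Or.inr (Or.inl hx))
    have hzV : z⁻¹ ∈ V := hV _ (Or.inr (Or.inr (Or.inl rfl)))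
    have hqV : q ∈ V := hV _ (Or.inr (Or.inr (Or.inr (Or.inl rfl))))
    have hqV' : q⁻¹ ∈ V := hV _ (Or.inr (Or.inr (Or.inr (Or.inr rfl))))
    have hinj : Function.Injective V.subtype := Subtype.val_injective
    have hadm : Adm P' Q' := adm_of_map V.subtype hinj (by rw [hP', hQ']; exact h)
    have hadmp := adm_map φ hadm
    have hp2 : 2 < p := lt_of_le_of_lt (le_max_left _ _) hpN
    have hpj : j < p := lt_of_le_of_lt (le_max_right _ _) hpN
    have hodd : Odd p := hF.out.odd_of_ne_two (by omega)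
    have unit : ∀ (y : ℂ) (hy : y ≠ 0) (hyV : y⁻¹ ∈ V) (w : V), (w : ℂ) = y → φ w ≠ 0 := by
      intro y hy hyV w hw h0
      have h1 : w * ⟨y⁻¹, hyV⟩ = 1 := by
        apply Subtype.val_injective
        show (w : ℂ) * y⁻¹ = 1
        rw [hw, mul_inv_cancel₀ hy]
      have h2 := congrArg φ h1
      rw [map_mul, h0, zero_mul, map_one] at h2
      exact zero_ne_one h2
    refine ⟨p, hF, V, φ, P', Q', hP', hQ', unit z hz hzV, unit q hq0 hqV', ?_⟩
    refine (const_eq hadmp (tr_natDegree V φ hP' hP) (tr_natDegree V φ hQ' hQ)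
      (φ ⟨q, hqV⟩) (unit q hq0 hqV' _ rfl) ?_ hodd _ ?_).1
    · intro b
      have hb : b = φ (b.val : V) := by
        rw [map_natCast, ZMod.natCast_zmod_val]
      rw [hb, tr_coeff', tr_coeff', ← map_add]
      congr 1
      apply hinj
      rw [map_add, tr_coeff V hP', tr_coeff V hQ', ← eval_add, hq, eval_C]
      rfl
    · rw [map_neg, map_natCast, neg_ne_zero, Ne, ZMod.natCast_eq_zero_iff]
      intro hdvd
      have := Nat.le_of_dvd (by omega) hdvd
      omega
  constructor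
  · intro hP1
    rw [← sub_eq_zero]
    apply eq_zero_of_infinite
    intro J
    refine ⟨J + 1, by omega, ?_⟩
    by_contra hz
    obtain ⟨p, hF, V, φ, P', Q', hP', hQ', hz1, hq1, hcc⟩ := main (J + 1) _ (by omega) hz
    have hinj : Function.Injective V.subtype := Subtype.val_injective
    rw [cc, tr_coeff', tr_coeff', tr_coeff', tr_coeff'] at hcc
    have h1 : (P'.eval (C (-((J + 1 : ℕ) : V)))).coeff 1 = 0 := by
      apply hinj
      rw [tr_coeff V hP', hP1]
      simp
    have h2 : φ ((Q'.eval (C (-((J + 1 : ℕ) : V)))).coeff 1) ≠ 0 := by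
      apply hq1
      have h3 := tr_coeff V hQ' (-((J + 1 : ℕ) : V)) 1
      rw [show cf Q 1 = C q by rw [← hq, hP1, zero_add], eval_C] at h3
      exact h3
    rw [h1, map_zero, if_pos rfl, if_neg h2, add_zero] at hcc
    apply hz1 ((P'.eval (C (-((J + 1 : ℕ) : V)))).coeff 0 - (-((J + 1 : ℕ) : V)))
    · have h3 := tr_coeff V hP' (-((J + 1 : ℕ) : V)) 0
      rw [eval_sub, eval_X]
      have h4 : (((P'.eval (C (-((J + 1 : ℕ) : V)))).coeff 0 : V) : ℂ) =
        (cf P 0).eval (((-((J + 1 : ℕ) : V) : V)) : ℂ) := h3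
      push_cast at h4 ⊢
      rw [h4]
    · rw [map_sub, hcc, sub_self]
  · intro hQ1
    rw [← sub_eq_zero]
    apply eq_zero_of_infinite
    intro J
    refine ⟨J + 1, by omega, ?_⟩
    by_contra hz
    obtain ⟨p, hF, V, φ, P', Q', hP', hQ', hz1, hq1, hcc⟩ := main (J + 1) _ (by omega) hz
    have hinj : Function.Injective V.subtype := Subtype.val_injective
    rw [cc, tr_coeff', tr_coeff', tr_coeff', tr_coeff'] at hcc
    have h1 : (Q'.eval (C (-((J + 1 : ℕ) : V)))).coeff 1 = 0 := by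
      apply hinj
      rw [tr_coeff V hQ', hQ1]
      simp
    have h2 : φ ((P'.eval (C (-((J + 1 : ℕ) : V)))).coeff 1) ≠ 0 := by
      apply hq1
      have h3 := tr_coeff V hP' (-((J + 1 : ℕ) : V)) 1
      rw [show cf P 1 = C q by rw [← hq, hQ1, add_zero], eval_C] at h3
      exact h3
    rw [h1, map_zero, if_pos rfl, if_neg h2, zero_add] at hcc
    apply hz1 ((Q'.eval (C (-((J + 1 : ℕ) : V)))).coeff 0 - (-((J + 1 : ℕ) : V)))
    · have h3 := tr_coeff V hQ' (-((J + 1 : ℕ) : V)) 0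
      rw [eval_sub, eval_X]
      have h4 : (((Q'.eval (C (-((J + 1 : ℕ) : V)))).coeff 0 : V) : ℂ) =
        (cf Q 0).eval (((-((J + 1 : ℕ) : V) : V)) : ℂ) := h3
      push_cast at h4 ⊢
      rw [h4]
    · rw [map_sub, hcc, sub_self]

end Pool.Agent.ShorBoth
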